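import Mathlib
import Pool.Agent.Work.MP_974d84_co_exp.Main

/-!
Extension of a 4-flow of a cubic graph minus a set of matching edges which is thin in all bonds.
-/

set_option linter.unusedSectionVars false

namespace Pool.Agent.Thin5

open Finset SimpleGraph Pool.Agent.Exp MP974d84

variable {V : Type} [Fintype V] [DecidableEq V] {G : SimpleGraph V} [DecidableRel G.Adj]

/-- Splitting of the number of leaving edges. -/
theorem dd_split {A W : Finset V} (hA : A ⊆ W) (hno : ∀ x ∈ A, ∀ y ∈ W, y ∉ A → ¬ G.Adj x y) :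
    dd G W = dd G A + dd G (W \ A) := by
  unfold dd
  rw [← card_union_of_disjoint]
  · congr 1
    ext p
    rw [mem_union, mem_cut, mem_cut, mem_cut]
    constructor
    · rintro ⟨h1, h2, h3⟩
      by_cases h : p.1 ∈ A
      · exact Or.inl ⟨h, fun h' => h2 (hA h'), h3⟩
      · exact Or.inr ⟨mem_sdiff.2 ⟨h1, h⟩, fun h' => h2 (mem_sdiff.1 h').1, h3⟩
    · rintro (⟨h1, h2, h3⟩ | ⟨h1, h2, h3⟩)
      · exact ⟨hA h1, fun h' => hno _ h1 _ h' h2 h3, h3⟩
      · rw [mem_sdiff] at h1 h2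
        refine ⟨h1.1, fun h' => ?_, h3⟩
        by_cases h : p.2 ∈ A
        · exact hno _ h _ h1.1 h1.2 h3.symm
        · exact h2 ⟨h', h⟩
  · rw [Finset.disjoint_left]
    intro p hp hp'
    rw [mem_cut] at hp hp'
    exact (mem_sdiff.1 hp'.1).2 hp.1

/-- The two parts of a set which is not joined are left by fewer edges. -/
theorem split_lt (h3 : ∀ v, G.degree v = 3) {k : ℕ} (hk : 3 ≤ k) (hc : CycConn G k)
    {W : Finset V} (hj : ¬ Joined G W) : ∃ A ⊆ W, dd G A < dd G W ∧ dd G (W \ A) < dd G W ∧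
      ∀ x ∈ A, ∀ y ∈ W, y ∉ A → ¬ G.Adj x y := by
  unfold Pool.Agent.Exp.Joined at hj
  push Not at hj
  obtain ⟨A, hAW, hA, hne, hno⟩ := hj
  refine ⟨A, hAW, ?_, ?_, hno⟩
  · have h1 := dd_split (G := G) hAW hno
    have hnon : (W \ A).Nonempty := by
      rw [sdiff_nonempty]
      intro h
      exact hne (subset_antisymm hAW h)
    have h2 : 3 ≤ dd G (W \ A) := by
      refine three_le_dd G h3 hk hc hnon ?_
      obtain ⟨x, hx⟩ := hA
      exact ⟨x, mem_compl.2 fun h => (mem_sdiff.1 h).2 hx⟩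
    omega
  · have h1 := dd_split (G := G) hAW hno
    have h2 : 3 ≤ dd G A := by
      refine three_le_dd G h3 hk hc hA ?_
      obtain ⟨x, hx⟩ : (W \ A).Nonempty := by
        rw [sdiff_nonempty]
        intro h
        exact hne (subset_antisymm hAW h)
      exact ⟨x, mem_compl.2 (mem_sdiff.1 hx).2⟩
    omega

section

variable {ν : V → ℕ} (hν : Function.Injective ν) {μ : V → V} {Jv : Finset V}

include hν in
/-- The cut condition. -/
theorem jj_le_bond (h3 : ∀ v, G.degree v = 3) {k : ℕ} (hk : 3 ≤ k) (hc : CycConn G k)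
    (hμ : ∀ v, μ (μ v) = v) (hJ : ∀ v ∈ Jv, μ v ∈ Jv)
    (hthin : ∀ W : Finset V, Joined G W → Joined G Wᶜ →
      2 ≤ jj μ Jv W → 5 * jj μ Jv W ≤ dd G W) :
    ∀ (n : ℕ) (W : Finset V), dd G W = n → ∀ φ : V × V → ℤ, (∀ e, -3 ≤ φ e ∧ φ e ≤ 3) →
      (∀ a, D (Prod.fst : V × V → V) Prod.snd φ a = 0) →
      (∀ e, φ e ≠ 0 ↔ (e ∈ K.oe ν G ∧ ¬ isJ μ Jv e)) →
      (jj μ Jv W : ℤ) ≤ hh (Prod.fst : V × V → V) Prod.snd φ W := by
  intro n
  induction n using Nat.strong_induction_on with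
  | _ n ih =>
    intro W hn φ hφ3 hφ0 hφ
    by_cases hj : Joined G W
    · by_cases hj' : Joined G Wᶜ
      · exact jj_le_joined hν h3 hk hc hμ hJ hφ3 hφ0 hφ (hthin W hj hj')
      · obtain ⟨A, hAW, h1, h2, hno⟩ := split_lt h3 hk hc hj'
        rw [dd_compl, hn] at h1 h2
        have g3 : ∀ e, -3 ≤ (fun e => - φ e) e ∧ (fun e => - φ e) e ≤ 3 := fun e => by
          have := hφ3 e
          simp only
          omega
        have g0 : ∀ a, D (Prod.fst : V × V → V) Prod.snd (fun e => - φ e) a = 0 := fun a => by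
          rw [D_neg, hφ0, neg_zero]
        have g : ∀ e, (fun e => - φ e) e ≠ 0 ↔ (e ∈ K.oe ν G ∧ ¬ isJ μ Jv e) := fun e => by
          simp only
          rw [neg_ne_zero]
          exact hφ e
        have i1 := ih _ h1 A rfl _ g3 g0 g
        have i2 := ih _ h2 (Wᶜ \ A) rfl _ g3 g0 g
        have j1 := jj_split (μ := μ) (Jv := Jv) hAW
        have j2 := hh_split (G := G) (φ := fun e => - φ e)
          (fun e he => (K.mem_oe.1 ((g e).1 he).1).1) hAW hno
        have h6 : hh (Prod.fst : V × V → V) Prod.snd (fun e => - φ e) Wᶜ =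
            hh (Prod.fst : V × V → V) Prod.snd φ W := by
          unfold hh
          exact sum_congr rfl fun e _ => by rw [ov_neg_compl]
        have h7 := jj_compl hμ hJ W
        omega
    · obtain ⟨A, hAW, h1, h2, hno⟩ := split_lt h3 hk hc hj
      rw [hn] at h1 h2
      have i1 := ih _ h1 A rfl φ hφ3 hφ0 hφ
      have i2 := ih _ h2 (W \ A) rfl φ hφ3 hφ0 hφ
      have j1 := jj_split (μ := μ) (Jv := Jv) hAW
      have j2 := hh_split (G := G) (φ := φ) (fun e he => (K.mem_oe.1 ((hφ e).1 he).1).1) hAW hno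
      omega

include hν in
/-- Extension of a 4-flow of the graph minus the marked edges to a nowhere-zero 5-flow, if the
marked edges are thin in all bonds. -/
theorem extend_bond (h3 : ∀ v, G.degree v = 3) {k : ℕ}
    (hk : 3 ≤ k) (hc : CycConn G k) (hμ : ∀ v, μ (μ v) = v)
    (hJ : ∀ v ∈ Jv, μ v ∈ Jv) {φ : V × V → ℤ} (hφ3 : ∀ e, -3 ≤ φ e ∧ φ e ≤ 3)
    (hφ0 : ∀ a, D (Prod.fst : V × V → V) Prod.snd φ a = 0)
    (hφ : ∀ e, φ e ≠ 0 ↔ (e ∈ K.oe ν G ∧ ¬ isJ μ Jv e))
    (hthin : ∀ W : Finset V, Joined G W → Joined G Wᶜ →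
      2 ≤ jj μ Jv W → 5 * jj μ Jv W ≤ dd G W) :
    HasFlow (ZMod 5) (Prod.fst : V × V → V) Prod.snd (K.oe ν G) := by
  refine extendE (φ := φ) (ρ := fun e => if e ∈ K.oe ν G ∧ isJ μ Jv e then 1 else 0) hφ3
    (fun e => by split_ifs <;> omega) (fun e he => ?_) (fun e => ?_) (fun Z => ?_)
  · rw [if_neg]
    intro h
    exact ((hφ e).1 he).2 h.2
  · rw [hφ e]
    by_cases h1 : e ∈ K.oe ν G <;> by_cases h2 : isJ μ Jv e <;> simp [h1, h2]
  · have h4 := jj_le_bond hν h3 hk hc hμ hJ hthin _ Z rfl φ hφ3 hφ0 hφ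
    have h5 := J_cross (G := G) hν hμ hJ Z
    have h6 : - ∑ e, ov (Prod.fst : V × V → V) Prod.snd (fun e => if e ∈ K.oe ν G ∧ isJ μ Jv e then (1 : ℤ) else 0) Z e
        ≤ ((K.oe ν G).filter fun e => crs (Prod.fst : V × V → V) Prod.snd Z e ∧ isJ μ Jv e).card := by
      rw [card_filter, ← sum_neg_distrib]
      push_cast
      rw [← sum_filter_add_sum_filter_not univ (fun e => e ∈ K.oe ν G)]
      have z1 : ∑ e ∈ univ.filter (fun e => ¬ e ∈ K.oe ν G),
          (- ov (Prod.fst : V × V → V) Prod.snd (fun e => if e ∈ K.oe ν G ∧ isJ μ Jv e then (1 : ℤ) else 0) Z e) = 0 := by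
        refine sum_eq_zero fun e he => ?_
        rw [mem_filter] at he
        unfold ov
        simp [he.2]
      have z2 : univ.filter (fun e => e ∈ K.oe ν G) = K.oe ν G := by ext e; simp
      rw [z1, add_zero, z2]
      refine sum_le_sum fun e he => ?_
      unfold ov crs
      by_cases c1 : e.1 ∈ Z <;> by_cases c2 : e.2 ∈ Z <;> by_cases c3 : isJ μ Jv e <;>
        simp [c1, c2, c3, he]
    omega

end

end Pool.Agent.Thin5
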