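import Mathlib
import Pool.Agent.Work.MP_974d84_co_exp.Main

/-!
# Many connecting sets of matching edges which are far apart
-/

set_option linter.unusedSectionVars false

namespace Pool.Agent.Thin5

open Finset SimpleGraph Pool.Agent.Exp MP974d84

variable {V : Type} [Fintype V] [DecidableEq V] {G : SimpleGraph V} [DecidableRel G.Adj]

/-- The copies, linked at one vertex. -/
def rl (G : SimpleGraph V) (μ : V → V) (v₀ : V) (m : ℕ) (x y : V × Fin m) : Prop :=
  (x.2 = y.2 ∧ r1 G μ x.1 y.1) ∨ (x.1 = v₀ ∧ y.1 = v₀)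

/-- The matching edges of the copies. -/
def rb (μ : V → V) (m : ℕ) (x : V × Fin m) : V × Fin m := (μ x.1, x.2)

open Classical in
/-- Many edges join the classes. -/
theorem crossing_copies (h3 : ∀ v, G.degree v = 3) {μ : V → V} {k m : ℕ} (v₀ : V)
    (hc : CycConn G k) (A : Finset (V × Fin m))
    (hA : 2 ≤ cc (rl G μ v₀ m) (fun x => x) (rb μ m) A) :
    k * cc (rl G μ v₀ m) (fun x => x) (rb μ m) A
      ≤ (univ.filter fun e => ¬ Cn (rl G μ v₀ m) (fun x => x) (rb μ m) A e (rb μ m e)).card := by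
  set S := cnS (rl G μ v₀ m) (fun x => x) (rb μ m) A with hS
  have hcc : cc (rl G μ v₀ m) (fun x => x) (rb μ m) A = Fintype.card (Quotient S) := by
    unfold cc
    rw [Nat.card_eq_fintype_card]
  have hall : ∀ x, ∃ y, ¬ Cn (rl G μ v₀ m) (fun x => x) (rb μ m) A x y := by
    intro x
    by_contra hno
    push Not at hno
    have : cc (rl G μ v₀ m) (fun x => x) (rb μ m) A ≤ 1 := by
      rw [hcc, Fintype.card_le_one_iff]
      intro p q
      induction p using Quotient.inductionOn with
      | _ p =>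
        induction q using Quotient.inductionOn with
        | _ q => exact Quotient.sound ((hno p).symm.trans (hno q))
    omega
  rw [hcc]
  rw [card_eq_sum_card_fiberwise (f := fun v => (Quotient.mk S v))
    (t := (univ : Finset (Quotient S))) (fun _ _ => mem_coe.2 (mem_univ _)), mul_comm,
    ← card_univ, ← smul_eq_mul, ← sum_const]
  refine sum_le_sum fun c _ => ?_
  induction c using Quotient.inductionOn with
  | _ r =>
    -- a copy in which the class is neither empty nor everything
    obtain ⟨j, ⟨a, ha⟩, ⟨b, hb⟩⟩ : ∃ j : Fin m,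
        (∃ a, Cn (rl G μ v₀ m) (fun x => x) (rb μ m) A r (a, j)) ∧
        ∃ b, ¬ Cn (rl G μ v₀ m) (fun x => x) (rb μ m) A r (b, j) := by
      by_cases h : ∃ b, ¬ Cn (rl G μ v₀ m) (fun x => x) (rb μ m) A r (b, r.2)
      · exact ⟨r.2, ⟨r.1, Cn.refl A r⟩, h⟩
      · push Not at h
        obtain ⟨y, hy⟩ := hall r
        refine ⟨y.2, ⟨v₀, (h v₀).trans (Cn.base (Or.inr ⟨rfl, rfl⟩))⟩, ⟨y.1, hy⟩⟩
    let X : Finset V := univ.filter fun v => Cn (rl G μ v₀ m) (fun x => x) (rb μ m) A r (v, j)
    have hmem : ∀ v, v ∈ X ↔ Cn (rl G μ v₀ m) (fun x => x) (rb μ m) A r (v, j) :=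
      fun v => by simp [X]
    have hX : ∀ p q, r1 G μ p q → (p ∈ X ↔ q ∈ X) := by
      intro p q h
      rw [hmem, hmem]
      have h' : Cn (rl G μ v₀ m) (fun x => x) (rb μ m) A (p, j) (q, j) :=
        Cn.base (Or.inl ⟨rfl, h⟩)
      exact ⟨fun h1 => h1.trans h', fun h1 => h1.trans h'.symm⟩
    have hX' : ∀ p q, r1 G μ p q → (p ∈ Xᶜ ↔ q ∈ Xᶜ) := by
      intro p q h
      rw [mem_compl, mem_compl, hX p q h]
    have n1 := closed_not_acyclic G h3 hX ⟨a, (hmem a).2 ha⟩
    have n2 := closed_not_acyclic G h3 hX' ⟨b, mem_compl.2 fun h => hb ((hmem b).1 h)⟩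
    have h5 := hc X n1 n2
    rw [closed_cut G hX] at h5
    refine h5.trans (card_le_card_of_injOn (fun v => (v, j)) ?_ ?_)
    · intro v hv
      rw [mem_coe, mem_filter] at hv
      simp only [mem_coe]
      rw [mem_filter, mem_filter]
      have hrv := (hmem v).1 hv.1
      refine ⟨⟨mem_univ _, fun h => ?_⟩, Quotient.sound hrv.symm⟩
      exact hv.2.1 ((hmem _).2 (hrv.trans h))
    · intro v _ v' _ h
      exact (Prod.ext_iff.1 h).1

/-- Connecting sets of matching edges which are pairwise far apart, also in one set. -/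
theorem exists_trees (h3 : ∀ v, G.degree v = 3) {μ : V → V} (hadj : ∀ v, G.Adj v (μ v))
    (hμ : ∀ v, μ (μ v) = v) {k m ρ : ℕ} (hc : CycConn G k) (hm0 : 0 < m)
    (hm : 2 * (m * (4 * (3 * 2 ^ ρ))) ≤ k) :
    ∃ T : Fin m → Finset V, (∀ i u v, Cn (r1 G μ) (fun v => v) μ (T i) u v) ∧
      ∀ i j, ∀ p ∈ T i, ∀ q ∈ T j, (i, p) ≠ (j, q) → ¬ conf G μ ρ p q := by
  classical
  rcases isEmpty_or_nonempty V with hV | ⟨⟨v₀⟩⟩
  · exact ⟨fun _ => ∅, fun i u => (hV.false u).elim, fun i j p hp => absurd hp (notMem_empty p)⟩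
  set cf : V × Fin m → V × Fin m → Prop := fun x y => conf G μ ρ x.1 y.1 with hcf
  have hD : ∀ e : V × Fin m, (univ.filter fun e' => cf e e' ∨ e = e').card
      ≤ m * (4 * (3 * 2 ^ ρ)) := by
    intro e
    have hsub : (univ.filter fun e' => cf e e' ∨ e = e') ⊆
        (univ.filter fun q => conf G μ ρ e.1 q ∨ e.1 = q) ×ˢ (univ : Finset (Fin m)) := by
      intro e' he'
      rw [mem_filter] at he'
      rw [mem_product, mem_filter]
      refine ⟨⟨mem_univ _, ?_⟩, mem_univ _⟩
      rcases he'.2 with h | h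
      · exact Or.inl h
      · exact Or.inr (by rw [h])
    refine (card_le_card hsub).trans ?_
    rw [card_product, card_univ, Fintype.card_fin, mul_comm]
    exact Nat.mul_le_mul_left _ (conf_card G h3 hμ ρ e.1)
  have hD1 : 1 ≤ m * (4 * (3 * 2 ^ ρ)) := by
    have : 0 < m * (4 * (3 * 2 ^ ρ)) := by positivity
    exact this
  obtain ⟨τ, hτ1, hτ2⟩ := exists_conflictFree (r0 := rl G μ v₀ m)
    (a := fun x : V × Fin m => x) (b := rb μ m) (conf := cf)
    (fun _ _ h => conf_symm G h) hD1 hD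
    (fun A hA => (Nat.mul_le_mul_right _ hm).trans (crossing_copies h3 v₀ hc A hA))
  have hall : ∀ x y, Cn (rl G μ v₀ m) (fun x => x) (rb μ m) τ x y := by
    intro x y
    unfold cc at hτ2
    have : Fintype (Quotient (cnS (rl G μ v₀ m) (fun x => x) (rb μ m) τ)) := Fintype.ofFinite _
    rw [Nat.card_eq_fintype_card, Fintype.card_le_one_iff] at hτ2
    exact Quotient.exact (hτ2 (Quotient.mk _ x) (Quotient.mk _ y))
  refine ⟨fun i => univ.filter fun p => (p, i) ∈ τ, ?_, ?_⟩
  · intro i u v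
    set Ti : Finset V := univ.filter fun p => (p, i) ∈ τ with hTi
    set pr : V × Fin m → V := fun x => if x.2 = i then x.1 else v₀ with hpr
    have h1 : Cn (r1 G μ) (fun v => v) μ Ti (pr (u, i)) (pr (v, i)) := by
      refine Cn.le_of (fun x y => Cn (r1 G μ) (fun v => v) μ Ti (pr x) (pr y))
        ⟨fun x => Cn.refl Ti _, fun h => h.symm, fun h h' => h.trans h'⟩ ?_ ?_
        (hall (u, i) (v, i))
      · rintro ⟨x, j⟩ ⟨y, j'⟩ h
        rcases h with ⟨h1, h2⟩ | ⟨h1, h2⟩
        · simp only at h1 h2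
          subst h1
          by_cases hj : j = i
          · simp only [hpr, hj, if_true]
            exact Cn.base h2
          · simp only [hpr, if_neg hj]
            exact Cn.refl Ti _
        · simp only at h1 h2
          subst h1
          subst h2
          simp only [hpr, ite_self]
          exact Cn.refl Ti _
      · rintro ⟨p, j⟩ hp
        by_cases hj : j = i
        · subst hj
          simp only [hpr, rb, if_true]
          exact Cn.edge (mem_filter.2 ⟨mem_univ _, hp⟩)
        · simp only [hpr, rb, if_neg hj]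
          exact Cn.refl Ti _
    simpa [hpr] using h1
  · intro i j p hp q hq hne h
    rw [mem_filter] at hp hq
    exact hτ1 (p, i) hp.2 (q, j) hq.2 (fun he => hne (by
      rw [Prod.ext_iff] at he ⊢
      exact ⟨he.2, he.1⟩)) h

end Pool.Agent.Thin5
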