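import Mathlib
import Pool.Agent.Work.MP_974d84_co_log.Trace

/-!
# Counting bonds (module E)
-/

set_option linter.unusedSectionVars false

namespace Pool.Agent.Thin5

open Finset SimpleGraph Pool.Agent.Exp Pool.Agent.Log5

variable {V : Type} [Fintype V] [DecidableEq V] {G : SimpleGraph V} [DecidableRel G.Adj]

theorem level_bound {k K n N : ℕ} (hK0 : 0 < K) (hKk : K ≤ k) (hkn : k ≤ n) {L : ℝ}
    (hL : 95 ≤ L) (hN : Real.log (2 * (N + 1)) ≤ K * L / 100)
    {c : ℝ} (hc : c ≤ Real.exp (8 * n) * (2 * (N + 1)) ^ (8 * n / K + 1)) :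
    c * Real.exp (-(n * (L / 5 - 2 * Real.log 2))) ≤ Real.exp (-n) := by
  have hKR : (0 : ℝ) < K := by exact_mod_cast hK0
  have hN0 : (0 : ℝ) < 2 * (N + 1) := by positivity
  have h1 : ((2 * (N + 1)) ^ (8 * n / K + 1) : ℝ) ≤ Real.exp ((9 * n) * L / 100) := by
    have : ((2 * (N + 1)) ^ (8 * n / K + 1) : ℝ)
        = Real.exp (((8 * n / K + 1 : ℕ) : ℝ) * Real.log (2 * (N + 1))) := by
      rw [Real.exp_nat_mul, Real.exp_log hN0]
    rw [this]
    apply Real.exp_le_exp.2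
    have h2 : (((8 * n / K + 1 : ℕ) : ℝ)) * K ≤ 9 * n := by
      have h3 : (8 * n / K + 1) * K ≤ 9 * n := by
        have := Nat.div_mul_le_self (8 * n) K
        nlinarith
      exact_mod_cast h3
    calc (((8 * n / K + 1 : ℕ) : ℝ)) * Real.log (2 * (N + 1))
        ≤ (((8 * n / K + 1 : ℕ) : ℝ)) * (K * L / 100) :=
          mul_le_mul_of_nonneg_left hN (by positivity)
      _ = ((((8 * n / K + 1 : ℕ) : ℝ)) * K) * (L / 100) := by ring
      _ ≤ (9 * n) * (L / 100) := by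
          apply mul_le_mul_of_nonneg_right h2; linarith
      _ = _ := by ring
  have hl2 := Real.log_two_lt_d9
  have hn0 : (0 : ℝ) ≤ n := by positivity
  calc c * Real.exp (-(n * (L / 5 - 2 * Real.log 2)))
      ≤ (Real.exp (8 * n) * Real.exp ((9 * n) * L / 100)) *
        Real.exp (-(n * (L / 5 - 2 * Real.log 2))) := by
        apply mul_le_mul_of_nonneg_right _ (Real.exp_pos _).le
        exact hc.trans (mul_le_mul_of_nonneg_left h1 (Real.exp_pos _).le)
    _ = Real.exp (n * (8 + 2 * Real.log 2 - 11 / 100 * L)) := by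
        rw [← Real.exp_add, ← Real.exp_add]
        congr 1; ring
    _ ≤ Real.exp (-n) := by
        apply Real.exp_le_exp.2
        nlinarith

theorem sum_exp_neg (s : Finset ℕ) (hs : ∀ n ∈ s, 1 ≤ n) : ∑ n ∈ s, Real.exp (-(n : ℝ)) < 1 := by
  obtain ⟨N, hN⟩ : ∃ N, s ⊆ Finset.Icc 1 N := by
    refine ⟨s.sup id, fun n hn => ?_⟩
    rw [Finset.mem_Icc]
    exact ⟨hs n hn, Finset.le_sup (f := id) hn⟩
  have h1 : ∑ n ∈ s, Real.exp (-(n : ℝ)) ≤ ∑ n ∈ Finset.Icc 1 N, Real.exp (-(n : ℝ)) :=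
    Finset.sum_le_sum_of_subset_of_nonneg hN (fun _ _ _ => (Real.exp_pos _).le)
  have h2 : ∀ N : ℕ, ∑ n ∈ Finset.Icc 1 N, Real.exp (-(n : ℝ)) ≤ 1 - (1 / 2) ^ N := by
    intro N
    induction N with
    | zero => simp
    | succ N ih =>
      rw [Finset.sum_Icc_succ_top (by omega)]
      have he : Real.exp (-((N + 1 : ℕ) : ℝ)) ≤ (1 / 2) ^ (N + 1) := by
        have h3 : Real.exp (-((N + 1 : ℕ) : ℝ)) = (Real.exp (-1)) ^ (N + 1) := by
          rw [← Real.exp_nat_mul]; congr 1; push_cast; ring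
        rw [h3]
        apply pow_le_pow_left₀ (Real.exp_pos _).le
        rw [Real.exp_neg, ← one_div]
        apply one_div_le_one_div_of_le (by norm_num)
        have := Real.add_one_le_exp (1 : ℝ)
        linarith
      have h5 : (1 / 2 : ℝ) ^ N = 2 * (1 / 2) ^ (N + 1) := by ring
      linarith
  have h3 := h2 N
  have h4 : (0 : ℝ) < (1 / 2) ^ N := by positivity
  linarith

/-- E -/
theorem sum_bonds (h3 : ∀ v, G.degree v = 3) {K k : ℕ} (hc : CycConn G k) (hKk : K ≤ k)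
    (hK0 : 0 < K) (hk : 2 ≤ k) (hg : Gir G K) (F : Finset (Finset V))
    (hF : ∀ S ∈ F, Big G K S ∧ k ≤ dd G S) {L : ℝ} (hL : 95 ≤ L)
    (hn : Real.log (2 * (Fintype.card V + 1)) ≤ K * L / 100) :
    ∑ S ∈ F, Real.exp (-(dd G S * (L / 5 - 2 * Real.log 2))) < 1 := by
  classical
  have h1 : ∑ S ∈ F, Real.exp (-(dd G S * (L / 5 - 2 * Real.log 2)))
      = ∑ n ∈ F.image (dd G), ((F.filter fun S => dd G S = n).card : ℝ) *
        Real.exp (-(n * (L / 5 - 2 * Real.log 2))) := by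
    rw [Finset.sum_comp (fun n : ℕ => Real.exp (-(n * (L / 5 - 2 * Real.log 2)))) (dd G)]
    refine Finset.sum_congr rfl fun n _ => ?_
    rw [nsmul_eq_mul]
  rw [h1]
  have h2 : ∀ n ∈ F.image (dd G), ((F.filter fun S => dd G S = n).card : ℝ) *
        Real.exp (-(n * (L / 5 - 2 * Real.log 2))) ≤ Real.exp (-(n : ℝ)) := by
    intro n hnn
    obtain ⟨S, hS, hSn⟩ := Finset.mem_image.1 hnn
    have hkn : k ≤ n := hSn ▸ (hF S hS).2
    have ha : 8 * n ≤ (8 * n / K + 1) * K := by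
      have h6 := Nat.div_add_mod (8 * n) K
      have h7 := Nat.mod_lt (8 * n) hK0
      nlinarith
    have ht := trace_bound h3 hc hKk hK0 hg univ (F.filter fun S => dd G S = n)
      (fun S hS => (hF S (Finset.mem_filter.1 hS).1).1)
      (fun S _ S' _ h => Finset.ext fun v => h v (mem_univ v))
      (D := n) (a := 8 * n / K + 1) (fun S hS => (Finset.mem_filter.1 hS).2.le) ha
      (Nat.succ_le_succ (Nat.zero_le _))
    refine level_bound (N := Fintype.card V) hK0 hKk hkn hL hn ?_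
    rw [Finset.card_univ] at ht
    exact ht
  refine (Finset.sum_le_sum h2).trans_lt (sum_exp_neg _ ?_)
  intro n hnn
  obtain ⟨S, hS, hSn⟩ := Finset.mem_image.1 hnn
  have hkn : k ≤ n := hSn ▸ (hF S hS).2
  omega

end Pool.Agent.Thin5
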