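import Mathlib
import Pool.Agent.Work.MP_974d84_co_exp.Conf

/-!
# Rounding of connecting sets: swap rounding with a potential
-/

set_option linter.unusedSectionVars false

namespace Pool.Agent.Thin5

open Finset Pool.Agent.Exp

section pot

variable {E ι : Type*} [DecidableEq E]

/-- The potential of a vector. -/
def Pot (F : Finset ι) (c α : ι → ℝ) (A : ι → Finset E) (y : E → ℝ) : ℝ :=
  ∑ s ∈ F, c s * ∏ e ∈ A s, (1 + α s * y e)

variable {F : Finset ι} {c α : ι → ℝ} {A : ι → Finset E}

theorem Pot_mono (hc : ∀ s ∈ F, 0 ≤ c s) (hα : ∀ s ∈ F, 0 ≤ α s) {y y' : E → ℝ}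
    (h0 : ∀ e, 0 ≤ y e) (h : ∀ e, y e ≤ y' e) : Pot F c α A y ≤ Pot F c α A y' := by
  refine sum_le_sum fun s hs => mul_le_mul_of_nonneg_left ?_ (hc s hs)
  refine prod_le_prod (fun e _ => ?_) fun e _ => ?_
  · have := mul_nonneg (hα s hs) (h0 e)
    linarith
  · have := mul_le_mul_of_nonneg_left (h e) (hα s hs)
    linarith

/-- Moving the amount `s` from `w` to `e`. -/
def upd (y : E → ℝ) (e w : E) (s : ℝ) (x : E) : ℝ :=
  y x + (if x = e then s else 0) - (if x = w then s else 0)

theorem prod_upd (B : Finset E) (a : ℝ) (y : E → ℝ) {e w : E} (hne : e ≠ w) (s : ℝ) :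
    ∏ x ∈ B, (1 + a * upd y e w s x) = (∏ x ∈ (B.erase e).erase w, (1 + a * y x)) *
      ((if e ∈ B then 1 + a * (y e + s) else 1) * (if w ∈ B then 1 + a * (y w - s) else 1)) := by
  have h0 : ∏ x ∈ (B.erase e).erase w, (1 + a * upd y e w s x)
      = ∏ x ∈ (B.erase e).erase w, (1 + a * y x) := by
    refine prod_congr rfl fun x hx => ?_
    rw [mem_erase, mem_erase] at hx
    simp [upd, hx.1, hx.2.1]
  have he : upd y e w s e = y e + s := by simp [upd, hne]
  have hw : upd y e w s w = y w - s := by simp [upd, hne.symm]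
  have h1 : ∏ x ∈ B.erase e, (1 + a * upd y e w s x)
      = (∏ x ∈ (B.erase e).erase w, (1 + a * y x)) *
        (if w ∈ B then 1 + a * (y w - s) else 1) := by
    by_cases hwB : w ∈ B
    · rw [if_pos hwB, ← prod_erase_mul _ _ (mem_erase.2 ⟨hne.symm, hwB⟩), h0, hw]
    · rw [if_neg hwB, mul_one, ← h0,
        erase_eq_of_notMem (fun h => hwB (mem_of_mem_erase h))]
  by_cases heB : e ∈ B
  · rw [if_pos heB, ← prod_erase_mul _ _ heB, h1, he]
    ring
  · rw [if_neg heB, one_mul, ← h1, erase_eq_of_notMem heB]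

/-- One of the two moves does not increase the potential. -/
theorem Pot_exch (hc : ∀ s ∈ F, 0 ≤ c s) (hα : ∀ s ∈ F, 0 ≤ α s) {y : E → ℝ}
    (h0 : ∀ e, 0 ≤ y e) {e w : E} (hne : e ≠ w) {β₁ β₂ : ℝ} (h1 : 0 ≤ β₁) (h2 : 0 ≤ β₂) :
    β₂ * Pot F c α A (upd y e w (-β₁)) + β₁ * Pot F c α A (upd y e w β₂)
      ≤ (β₁ + β₂) * Pot F c α A y := by
  unfold Pot
  rw [mul_sum, mul_sum, mul_sum, ← sum_add_distrib]
  refine sum_le_sum fun s hs => ?_
  have hy : ∏ x ∈ A s, (1 + α s * y x) = ∏ x ∈ A s, (1 + α s * upd y e w 0 x) := by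
    refine prod_congr rfl fun x _ => ?_
    simp [upd]
  rw [hy, prod_upd _ _ _ hne, prod_upd _ _ _ hne, prod_upd _ _ _ hne]
  set R := ∏ x ∈ ((A s).erase e).erase w, (1 + α s * y x) with hR
  have hR0 : 0 ≤ R := prod_nonneg fun x _ => by
    have := mul_nonneg (hα s hs) (h0 x)
    linarith
  have hcR : 0 ≤ c s * R := mul_nonneg (hc s hs) hR0
  have hq : 0 ≤ α s ^ 2 * (β₁ * β₂ * (β₁ + β₂)) := by positivity
  by_cases c1 : e ∈ A s <;> by_cases c2 : w ∈ A s
  · simp only [c1, c2, if_true]
    have : (β₁ + β₂) * (c s * (R * ((1 + α s * (y e + 0)) * (1 + α s * (y w - 0))))) -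
        (β₂ * (c s * (R * ((1 + α s * (y e + -β₁)) * (1 + α s * (y w - -β₁))))) +
          β₁ * (c s * (R * ((1 + α s * (y e + β₂)) * (1 + α s * (y w - β₂)))))) =
        (c s * R) * (α s ^ 2 * (β₁ * β₂ * (β₁ + β₂))) := by ring
    have h4 := mul_nonneg hcR hq
    linarith
  · simp only [c1, c2, if_true, if_false]
    refine le_of_eq ?_
    ring
  · simp only [c1, c2, if_true, if_false]
    refine le_of_eq ?_
    ring
  · simp only [c1, c2, if_false]
    refine le_of_eq ?_
    ring

/-- Indicator. -/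
def ind (B : Finset E) (e : E) : ℝ := if e ∈ B then 1 else 0

theorem ind_nonneg (B : Finset E) (e : E) : 0 ≤ ind B e := by
  unfold ind; split_ifs <;> norm_num

theorem ind_le {B B' : Finset E} (h : B ⊆ B') (e : E) : ind B e ≤ ind B' e := by
  unfold ind
  split_ifs with h1 h2
  · exact le_rfl
  · exact absurd (h h1) h2
  · norm_num
  · exact le_rfl

theorem ind_swap {B : Finset E} {e w : E} (he : e ∈ B) (hw : w ∉ B) (x : E) :
    ind (insert w (B.erase e)) x
      = ind B x + (if x = w then 1 else 0) - (if x = e then 1 else 0) := by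
  have hne : w ≠ e := fun h => hw (h ▸ he)
  unfold ind
  by_cases c1 : x = w
  · subst c1
    simp [hw, hne]
  · by_cases c2 : x = e
    · subst c2
      simp [he, c1]
    · simp [c1, c2]

end pot

variable {V E ι : Type*} [Fintype V] [DecidableEq V] [Fintype E] [DecidableEq E]
  {r0 : V → V → Prop} {a b : E → V}

theorem cg_of_edge {B B' : Finset E} (hB : ∀ u v, Cn r0 a b B u v)
    (h : ∀ e ∈ B, Cn r0 a b B' (a e) (b e)) (u v : V) : Cn r0 a b B' u v :=
  Cn.le_of (Cn r0 a b B') ⟨Cn.refl B', Cn.symm, Cn.trans⟩ (fun _ _ => Cn.base) h (hB u v)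

/-- The exchange property of connecting sets. -/
theorem exists_exchange {B₁ B₂ : Finset E} (h1 : ∀ u v, Cn r0 a b B₁ u v)
    (h2 : ∀ u v, Cn r0 a b B₂ u v) {e : E} (he : e ∈ B₁) (he2 : e ∉ B₂)
    (hess : ¬ Cn r0 a b (B₁.erase e) (a e) (b e)) :
    ∃ w ∈ B₂, w ∉ B₁ ∧ (∀ u v, Cn r0 a b (insert w (B₁.erase e)) u v) ∧
      ∀ u v, Cn r0 a b (insert e (B₂.erase w)) u v := by
  classical
  set A : Finset E := B₂.filter fun w => Cn r0 a b (B₁.erase e) (a w) (b w) with hA
  have hA2 : A ⊆ B₂ := filter_subset _ _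
  have hnot : ¬ Cn r0 a b A (a e) (b e) := by
    intro h
    apply hess
    exact Cn.le_of (Cn r0 a b (B₁.erase e)) ⟨Cn.refl _, Cn.symm, Cn.trans⟩ (fun _ _ => Cn.base)
      (fun w hw => (mem_filter.1 hw).2) h
  obtain ⟨w, hw, C, hAC, hC, hwC, hin, hout⟩ := exists_swap hA2 (h2 (a e) (b e)) hnot
  rw [mem_sdiff] at hw
  have hwc : ¬ Cn r0 a b (B₁.erase e) (a w) (b w) := fun h => hw.2 (mem_filter.2 ⟨hw.1, h⟩)
  have hw1 : w ∉ B₁ := by
    intro h
    have hne : w ≠ e := fun h' => he2 (h' ▸ hw.1)
    exact hwc (Cn.edge (mem_erase.2 ⟨hne, h⟩))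
  refine ⟨w, hw.1, hw1, ?_, ?_⟩
  · refine cg_of_edge h1 fun x hx => ?_
    by_cases hxe : x = e
    · subst hxe
      refine Cn.exchange (A := B₁.erase x) (w := x) (e := w) ?_ hwc
      rw [insert_erase he]
      exact h1 _ _
    · exact Cn.edge (mem_insert_of_mem (mem_erase.2 ⟨hxe, hx⟩))
  · refine cg_of_edge h2 fun x hx => ?_
    by_cases hxw : x = w
    · subst hxw
      have h3 := Cn.exchange (A := C) (w := x) (e := e) hin hout
      refine h3.mono (insert_subset_insert e fun y hy => mem_erase.2 ⟨?_, hC hy⟩)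
      rintro rfl
      exact hwC hy
    · exact Cn.edge (mem_insert_of_mem (mem_erase.2 ⟨hxw, hx⟩))

variable {F : Finset ι} {c α : ι → ℝ} {A : ι → Finset E}

/-- Merging two connecting sets. -/
theorem merge (hc : ∀ s ∈ F, 0 ≤ c s) (hα : ∀ s ∈ F, 0 ≤ α s) {z : E → ℝ}
    (hz : ∀ e, 0 ≤ z e) {β₁ β₂ : ℝ} (hb1 : 0 < β₁) (hb2 : 0 < β₂) :
    ∀ n : ℕ, ∀ B₁ B₂ : Finset E, (symmDiff B₁ B₂).card = n → (∀ u v, Cn r0 a b B₁ u v) →
      (∀ u v, Cn r0 a b B₂ u v) → ∃ B : Finset E, (∀ u v, Cn r0 a b B u v) ∧ B ⊆ B₁ ∪ B₂ ∧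
        Pot F c α A (fun e => z e + (β₁ + β₂) * ind B e) ≤
          Pot F c α A (fun e => z e + β₁ * ind B₁ e + β₂ * ind B₂ e) := by
  intro n
  induction n using Nat.strong_induction_on with
  | _ n ih =>
  intro B₁ B₂ hn h1 h2
  have hy0 : ∀ (X Y : Finset E) (e : E), 0 ≤ z e + β₁ * ind X e + β₂ * ind Y e := by
    intro X Y e
    have := hz e
    have := mul_nonneg hb1.le (ind_nonneg X e)
    have := mul_nonneg hb2.le (ind_nonneg Y e)
    linarith
  by_cases heq : B₁ = B₂
  · subst heq
    refine ⟨B₁, h1, subset_union_left, le_of_eq ?_⟩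
    congr 1
    funext e
    ring
  · by_cases hex : ∃ e ∈ B₁, e ∉ B₂
    · obtain ⟨e, he, he2⟩ := hex
      by_cases hess : Cn r0 a b (B₁.erase e) (a e) (b e)
      · -- drop the edge
        have h1' : ∀ u v, Cn r0 a b (B₁.erase e) u v := cg_of_edge h1 fun x hx => by
          by_cases hxe : x = e
          · rw [hxe]; exact hess
          · exact Cn.edge (mem_erase.2 ⟨hxe, hx⟩)
        have hlt : (symmDiff (B₁.erase e) B₂).card < n := by
          rw [← hn]
          apply card_lt_card
          rw [ssubset_iff_of_subset]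
          · refine ⟨e, ?_, ?_⟩
            · rw [mem_symmDiff]; exact Or.inl ⟨he, he2⟩
            · rw [mem_symmDiff]; simp [he2]
          · intro x hx
            rw [mem_symmDiff, mem_erase] at hx
            rw [mem_symmDiff]
            rcases hx with hx | hx
            · exact Or.inl ⟨hx.1.2, hx.2⟩
            · refine Or.inr ⟨hx.1, fun h => hx.2 ⟨?_, h⟩⟩
              rintro rfl
              exact he2 hx.1
        obtain ⟨B, hB, hBs, hP⟩ := ih _ hlt (B₁.erase e) B₂ rfl h1' h2
        refine ⟨B, hB, hBs.trans (union_subset_union (erase_subset _ _) le_rfl), hP.trans ?_⟩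
        refine Pot_mono hc hα (hy0 _ _) fun x => ?_
        have := mul_le_mul_of_nonneg_left (ind_le (erase_subset e B₁) x) hb1.le
        linarith
      · obtain ⟨w, hw, hw1, g1, g2⟩ := exists_exchange h1 h2 he he2 hess
        have hne : e ≠ w := fun h => hw1 (h ▸ he)
        have e1 : (fun x => z x + β₁ * ind (insert w (B₁.erase e)) x + β₂ * ind B₂ x)
            = upd (fun x => z x + β₁ * ind B₁ x + β₂ * ind B₂ x) e w (-β₁) := by
          funext x
          rw [ind_swap he hw1]
          unfold upd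
          split_ifs <;> ring
        have e2 : (fun x => z x + β₁ * ind B₁ x + β₂ * ind (insert e (B₂.erase w)) x)
            = upd (fun x => z x + β₁ * ind B₁ x + β₂ * ind B₂ x) e w β₂ := by
          funext x
          rw [ind_swap hw he2]
          unfold upd
          split_ifs <;> ring
        have hexch := Pot_exch (A := A) hc hα (hy0 B₁ B₂) hne hb1.le hb2.le
        rw [← e1, ← e2] at hexch
        by_cases hle : Pot F c α A
            (fun x => z x + β₁ * ind (insert w (B₁.erase e)) x + β₂ * ind B₂ x) ≤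
            Pot F c α A (fun x => z x + β₁ * ind B₁ x + β₂ * ind B₂ x)
        · have hlt : (symmDiff (insert w (B₁.erase e)) B₂).card < n := by
            rw [← hn]
            apply card_lt_card
            rw [ssubset_iff_of_subset]
            · refine ⟨e, ?_, ?_⟩
              · rw [mem_symmDiff]; exact Or.inl ⟨he, he2⟩
              · rw [mem_symmDiff]; simp [he2, hne]
            · intro x hx
              rw [mem_symmDiff, mem_insert, mem_erase] at hx
              rw [mem_symmDiff]
              rcases hx with ⟨rfl | hx, hx'⟩ | hx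
              · exact absurd hw hx'
              · exact Or.inl ⟨hx.2, hx'⟩
              · refine Or.inr ⟨hx.1, fun h => hx.2 (Or.inr ⟨?_, h⟩)⟩
                rintro rfl
                exact he2 hx.1
          obtain ⟨B, hB, hBs, hP⟩ := ih _ hlt _ B₂ rfl g1 h2
          refine ⟨B, hB, hBs.trans ?_, hP.trans hle⟩
          intro x hx
          rw [mem_union, mem_insert, mem_erase] at hx
          rw [mem_union]
          rcases hx with (rfl | hx) | hx
          · exact Or.inr hw
          · exact Or.inl hx.2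
          · exact Or.inr hx
        · have hle2 : Pot F c α A
              (fun x => z x + β₁ * ind B₁ x + β₂ * ind (insert e (B₂.erase w)) x) ≤
              Pot F c α A (fun x => z x + β₁ * ind B₁ x + β₂ * ind B₂ x) := by
            rw [not_le] at hle
            have h5 := mul_lt_mul_of_pos_left hle hb2
            by_contra h6
            rw [not_le] at h6
            have h7 := mul_lt_mul_of_pos_left h6 hb1
            linarith
          have hlt : (symmDiff B₁ (insert e (B₂.erase w))).card < n := by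
            rw [← hn]
            apply card_lt_card
            rw [ssubset_iff_of_subset]
            · refine ⟨e, ?_, ?_⟩
              · rw [mem_symmDiff]; exact Or.inl ⟨he, he2⟩
              · rw [mem_symmDiff]; simp [he]
            · intro x hx
              rw [mem_symmDiff, mem_insert, mem_erase] at hx
              rw [mem_symmDiff]
              rcases hx with hx | ⟨rfl | hx, hx'⟩
              · refine Or.inl ⟨hx.1, fun h => hx.2 (Or.inr ⟨?_, h⟩)⟩
                rintro rfl
                exact hw1 hx.1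
              · exact absurd he hx'
              · exact Or.inr ⟨hx.2, hx'⟩
          obtain ⟨B, hB, hBs, hP⟩ := ih _ hlt B₁ _ rfl h1 g2
          refine ⟨B, hB, hBs.trans ?_, hP.trans hle2⟩
          intro x hx
          rw [mem_union, mem_insert, mem_erase] at hx
          rw [mem_union]
          rcases hx with hx | rfl | hx
          · exact Or.inl hx
          · exact Or.inl he
          · exact Or.inr hx.2
    · -- `B₁` is contained in `B₂`
      push Not at hex
      obtain ⟨e, he, he1⟩ : ∃ e ∈ B₂, e ∉ B₁ := by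
        by_contra hcon
        push Not at hcon
        exact heq (Subset.antisymm hex hcon)
      have h2' : ∀ u v, Cn r0 a b (B₂.erase e) u v := fun u v => (h1 u v).mono fun x hx =>
        mem_erase.2 ⟨fun h' : x = e => he1 (h' ▸ hx), hex x hx⟩
      have hlt : (symmDiff B₁ (B₂.erase e)).card < n := by
        rw [← hn]
        apply card_lt_card
        rw [ssubset_iff_of_subset]
        · refine ⟨e, ?_, ?_⟩
          · rw [mem_symmDiff]; exact Or.inr ⟨he, he1⟩
          · rw [mem_symmDiff]; simp [he1]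
        · intro x hx
          rw [mem_symmDiff, mem_erase] at hx
          rw [mem_symmDiff]
          rcases hx with hx | hx
          · refine Or.inl ⟨hx.1, fun h => hx.2 ⟨?_, h⟩⟩
            rintro rfl
            exact he1 hx.1
          · exact Or.inr ⟨hx.1.2, hx.2⟩
      obtain ⟨B, hB, hBs, hP⟩ := ih _ hlt B₁ (B₂.erase e) rfl h1 h2'
      refine ⟨B, hB, hBs.trans (union_subset_union le_rfl (erase_subset _ _)), hP.trans ?_⟩
      refine Pot_mono hc hα (hy0 _ _) fun x => ?_
      have := mul_le_mul_of_nonneg_left (ind_le (erase_subset e B₂) x) hb2.le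
      linarith

/-- Merging a family of connecting sets. -/
theorem merge_all (hc : ∀ s ∈ F, 0 ≤ c s) (hα : ∀ s ∈ F, 0 ≤ α s) {m : ℕ} (hm : 0 < m)
    (T : Fin m → Finset E) (hT : ∀ i u v, Cn r0 a b (T i) u v) (s : Finset (Fin m))
    (hs : s.Nonempty) : ∀ z : E → ℝ, (∀ e, 0 ≤ z e) →
      ∃ B : Finset E, (∀ u v, Cn r0 a b B u v) ∧ (∀ e ∈ B, ∃ i, e ∈ T i) ∧
        Pot F c α A (fun e => z e + (s.card / m : ℝ) * ind B e) ≤
          Pot F c α A (fun e => z e + ∑ i ∈ s, (1 / m : ℝ) * ind (T i) e) := by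
  have hmr : (0 : ℝ) < m := by exact_mod_cast hm
  induction hs using Finset.Nonempty.cons_induction with
  | singleton i =>
    intro z _
    refine ⟨T i, hT i, fun e he => ⟨i, he⟩, le_of_eq ?_⟩
    simp
  | cons j s hj hs ih =>
    intro z hz
    have hz' : ∀ e, 0 ≤ z e + 1 / m * ind (T j) e := fun e => by
      have := hz e
      have := mul_nonneg (by positivity : (0 : ℝ) ≤ 1 / m) (ind_nonneg (T j) e)
      linarith
    obtain ⟨B', hB', hBs', hP'⟩ := ih (fun e => z e + 1 / m * ind (T j) e) hz'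
    have hsc : (0 : ℝ) < s.card / m := by
      have : (0 : ℝ) < s.card := by exact_mod_cast hs.card_pos
      positivity
    obtain ⟨B, hB, hBs, hP⟩ := merge (F := F) (c := c) (α := α) (A := A) hc hα hz
      (show (0 : ℝ) < 1 / m by positivity) hsc _ (T j) B' rfl (hT j) hB'
    refine ⟨B, hB, fun e he => ?_, ?_⟩
    · rcases mem_union.1 (hBs he) with h | h
      · exact ⟨j, h⟩
      · exact hBs' e h
    · have e1 : (fun e => z e + (((cons j s hj).card : ℕ) / m : ℝ) * ind B e)
          = fun e => z e + (1 / m + s.card / m) * ind B e := by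
        funext e
        rw [card_cons]
        push_cast
        ring
      have e2 : (fun e => z e + ∑ i ∈ cons j s hj, (1 / m : ℝ) * ind (T i) e)
          = fun e => z e + 1 / m * ind (T j) e + ∑ i ∈ s, (1 / m : ℝ) * ind (T i) e := by
        funext e
        rw [sum_cons]
        ring
      rw [e1, e2]
      exact hP.trans hP'

/-- B: rounding. -/
theorem round {m : ℕ} (hm : 0 < m) (T : Fin m → Finset E)
    (hT : ∀ i u v, Cn r0 a b (T i) u v) (F : Finset ι) (c α : ι → ℝ)
    (hc : ∀ s ∈ F, 0 ≤ c s) (hα : ∀ s ∈ F, 0 ≤ α s) (A : ι → Finset E) :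
    ∃ B : Finset E, (∀ u v, Cn r0 a b B u v) ∧ (∀ e ∈ B, ∃ i, e ∈ T i) ∧
      ∑ s ∈ F, c s * ∏ e ∈ A s, (1 + α s * if e ∈ B then 1 else 0) ≤
        ∑ s ∈ F, c s * ∏ e ∈ A s,
          (1 + α s * (((univ.filter fun i => e ∈ T i).card : ℝ) / m)) := by
  have : Nonempty (Fin m) := ⟨⟨0, hm⟩⟩
  have hmr : (m : ℝ) ≠ 0 := by
    have : (0 : ℝ) < m := by exact_mod_cast hm
    exact this.ne'
  obtain ⟨B, hB, hBs, hP⟩ := merge_all (F := F) (c := c) (α := α) (A := A) hc hα hm T hT univ
    univ_nonempty (fun _ => 0) (fun _ => le_rfl)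
  refine ⟨B, hB, hBs, ?_⟩
  have e1 : (fun e => (0 : ℝ) + (((univ : Finset (Fin m)).card : ℕ) / m : ℝ) * ind B e)
      = fun e => if e ∈ B then 1 else 0 := by
    funext e
    rw [card_univ, Fintype.card_fin, div_self hmr, zero_add, one_mul]
    rfl
  have e2 : (fun e => (0 : ℝ) + ∑ i : Fin m, (1 / m : ℝ) * ind (T i) e)
      = fun e => ((univ.filter fun i => e ∈ T i).card : ℝ) / m := by
    funext e
    rw [zero_add, ← mul_sum]
    unfold ind
    rw [sum_boole]
    ring
  rw [e1, e2] at hP
  exact hP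

end Pool.Agent.Thin5
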