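import Mathlib
import Pool.Agent.Work.MP_974d84_co_exp.Main
import Pool.Agent.Work.MP_974d84_co_log.Small

/-!
# Far apart matching edges are thin on small bonds
-/

set_option linter.unusedSectionVars false

namespace Pool.Agent.Thin5

open Finset SimpleGraph Pool.Agent.Exp Pool.Agent.Log5 MP974d84

variable {V : Type} [Fintype V] [DecidableEq V] {G : SimpleGraph V} [DecidableRel G.Adj]

theorem thin_acyclic (h3 : ∀ v, G.degree v = 3) {μ : V → V} {Jv : Finset V}
    (hfar : ∀ u ∈ Jv, ∀ v ∈ Jv, v ≠ u → v ≠ μ u → v ∉ Bl G.Adj 10 u) {W : Finset V}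
    (hW : Joined G W) (hac : (G.induce (W : Set V)).IsAcyclic) (h2 : 2 ≤ jj μ Jv W) :
    5 * jj μ Jv W ≤ dd G W := by
  have hsub : Jends μ Jv W ∩ W = Jends μ Jv W := by
    rw [inter_eq_left]
    exact filter_subset _ _
  have hne : W.Nonempty := by
    have h1 : (Jends μ Jv W).Nonempty := card_pos.1 (by unfold jj at h2; omega)
    obtain ⟨u, hu⟩ := h1
    exact ⟨u, ((mem_Jends μ Jv).1 hu).1⟩
  have h1 := dd_of_acyclic G h3 hne hac
  have h4 := scattered_card (G := G) (A := W) (T := Jends μ Jv W) hW (n := 4) (by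
    intro t ht u hu hne
    rw [mem_Jends] at ht hu
    rw [Finset.disjoint_left]
    intro x hx hx'
    refine hfar t ht.2.1 u hu.2.1 (Ne.symm hne) (by rintro rfl; exact ht.2.2 hu.1) ?_
    have := Bl_comp hx (Bl_symm (fun a b h => (G.adj_comm a b).1 h) hx')
    exact Bl_mono (by norm_num) t this)
  rw [hsub] at h4
  unfold jj at h2 ⊢
  omega

/-- D -/
theorem thin_small (h3 : ∀ v, G.degree v = 3) {k : ℕ} (hc : CycConn G k) {μ : V → V}
    (hμ : ∀ v, μ (μ v) = v) {Jv : Finset V} (hJ : ∀ v ∈ Jv, μ v ∈ Jv)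
    (hfar : ∀ u ∈ Jv, ∀ v ∈ Jv, v ≠ u → v ≠ μ u → v ∉ Bl G.Adj 10 u) {W : Finset V}
    (hW : Joined G W) (hW' : Joined G Wᶜ) (hk : dd G W < k) (h2 : 2 ≤ jj μ Jv W) :
    5 * jj μ Jv W ≤ dd G W := by
  by_cases a1 : (G.induce (W : Set V)).IsAcyclic
  · exact thin_acyclic h3 hfar hW a1 h2
  · by_cases a2 : (G.induce ((Wᶜ : Finset V) : Set V)).IsAcyclic
    · have h4 := jj_compl hμ hJ W
      have h5 := thin_acyclic h3 hfar hW' a2 (h2.trans h4)
      rw [dd_compl] at h5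
      omega
    · exact absurd (hc W a1 a2) (by omega)

end Pool.Agent.Thin5
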