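import Mathlib
import Pool.Agent.Work.MP_974d84_co_exp.Main
import Pool.Agent.Work.MP_974d84_co_log.SmallCase
import Pool.Agent.Work.MP_974d84_co_log.BigOf
import Pool.Agent.Work.MP_974d84_co_thin.Copies
import Pool.Agent.Work.MP_974d84_co_thin.Round
import Pool.Agent.Work.MP_974d84_co_thin.Bonds
import Pool.Agent.Work.MP_974d84_co_thin.SmallB
import Pool.Agent.Work.MP_974d84_co_thin.Count

/-!
# Nowhere-zero 5-flows of cubic graphs of cyclic edge connectivity about `log n / log log n`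
-/

set_option linter.unusedSectionVars false

namespace Pool.Agent.Thin5

open Finset SimpleGraph Pool.Agent.Exp Pool.Agent.Log5 MP974d84

variable {V : Type} [Fintype V] [DecidableEq V] {G : SimpleGraph V} [DecidableRel G.Adj]

/-- The ends of matching edges separated by `S`. -/
def Sp (μ : V → V) (S : Finset V) : Finset V := univ.filter fun p => ¬ (p ∈ S ↔ μ p ∈ S)

theorem mem_Sp {μ : V → V} {S : Finset V} {p : V} : p ∈ Sp μ S ↔ ¬ (p ∈ S ↔ μ p ∈ S) := by
  simp [Sp]

theorem Sp_card {μ : V → V} (hadj : ∀ v, G.Adj v (μ v)) (S : Finset V) :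
    (Sp μ S).card ≤ 2 * dd G S := by
  have h1 : Sp μ S ⊆ (univ.filter fun p => p ∈ S ∧ μ p ∉ S) ∪
      univ.filter fun p => p ∈ Sᶜ ∧ μ p ∉ Sᶜ := by
    intro p hp
    rw [mem_Sp] at hp
    rw [mem_union, mem_filter, mem_filter, mem_compl, mem_compl]
    by_cases h : p ∈ S <;> by_cases h' : μ p ∈ S <;> simp_all
  have h2 : ∀ X : Finset V, (univ.filter fun p => p ∈ X ∧ μ p ∉ X).card ≤ dd G X := by
    intro X
    unfold dd
    refine card_le_card_of_injOn (fun p => (p, μ p)) ?_ ?_
    · intro p hp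
      rw [mem_coe, mem_filter] at hp
      rw [mem_coe, mem_cut]
      exact ⟨hp.2.1, hp.2.2, hadj p⟩
    · intro p _ q _ h
      exact (Prod.mk.inj h).1
  have h4 := h2 S
  have h5 := h2 Sᶜ
  rw [dd_compl] at h5
  have h6 := card_le_card h1
  have h7 := card_union_le (univ.filter fun p => p ∈ S ∧ μ p ∉ S)
    (univ.filter fun p => p ∈ Sᶜ ∧ μ p ∉ Sᶜ)
  omega

/-- A connecting set of matching edges, thin on all large bonds. -/
theorem exists_thin (h3 : ∀ v, G.degree v = 3) {μ : V → V} (hadj : ∀ v, G.Adj v (μ v))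
    (hμ : ∀ v, μ (μ v) = v) {k K m ρ : ℕ} (hc : CycConn G k) (hg : Gir G k) (hm0 : 0 < m)
    (hm : 2 * (m * (4 * (3 * 2 ^ ρ))) ≤ k) (hK0 : 0 < K) (hKk : K + 2 ≤ k) {L : ℝ}
    (hLm : L = Real.log (m + 1)) (hL : 95 ≤ L)
    (hn : Real.log (2 * (Fintype.card V + 1)) ≤ K * L / 100) :
    ∃ B : Finset V, (∀ u v, Cn (r1 G μ) (fun v => v) μ B u v) ∧
      (∀ p ∈ B, ∀ q ∈ B, p ≠ q → ¬ conf G μ ρ p q) ∧
      ∀ S, Bond G S → k ≤ dd G S → 5 * (Sp μ S ∩ B).card ≤ dd G S := by
  classical
  obtain ⟨T, hT1, hT2⟩ := exists_trees h3 hadj hμ hc hm0 hm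
  set F : Finset (Finset V) := univ.filter fun S => Bond G S ∧ k ≤ dd G S with hF
  have hFbig : ∀ S ∈ F, Big G K S ∧ k ≤ dd G S := fun S hS => by
    rw [hF, mem_filter] at hS
    exact ⟨big_of_bond h3 hS.2.1 (hKk.trans hS.2.2), hS.2.2⟩
  have hsum := sum_bonds h3 hc (by omega : K ≤ k) hK0 (by omega)
    (fun A hA => hg A (by omega)) F hFbig hL hn
  obtain ⟨B, hB1, hB2, hB3⟩ := round hm0 T hT1 F
    (fun S => Real.exp (-((dd G S : ℝ) * (L / 5)))) (fun _ => (m : ℝ))
    (fun S _ => (Real.exp_pos _).le) (fun _ _ => Nat.cast_nonneg m) (Sp μ)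
  have hmr : (0 : ℝ) < m := by exact_mod_cast hm0
  have hself : ∀ p, conf G μ ρ p p := fun p => ⟨p, p, Or.inl rfl, Or.inl rfl, Bl_self ρ p⟩
  have hone : ∀ e, (univ.filter fun i => e ∈ T i).card ≤ 1 := by
    intro e
    rw [card_le_one]
    intro i hi j hj
    by_contra hij
    exact hT2 i j e (mem_filter.1 hi).2 e (mem_filter.1 hj).2
      (fun h => hij (Prod.mk.inj h).1) (hself e)
  have hright : ∑ S ∈ F, Real.exp (-((dd G S : ℝ) * (L / 5))) *
      ∏ e ∈ Sp μ S, (1 + (m : ℝ) * (((univ.filter fun i => e ∈ T i).card : ℝ) / m)) < 1 := by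
    refine lt_of_le_of_lt (sum_le_sum fun S hS => ?_) hsum
    have h1 : ∏ e ∈ Sp μ S, (1 + (m : ℝ) * (((univ.filter fun i => e ∈ T i).card : ℝ) / m))
        ≤ ∏ _e ∈ Sp μ S, (2 : ℝ) := by
      refine prod_le_prod (fun e _ => by positivity) fun e _ => ?_
      rw [mul_div_cancel₀ _ hmr.ne']
      have : ((univ.filter fun i => e ∈ T i).card : ℝ) ≤ 1 := by exact_mod_cast hone e
      linarith
    rw [prod_const] at h1
    have h2 : (2 : ℝ) ^ (Sp μ S).card ≤ 2 ^ (2 * dd G S) :=
      pow_le_pow_right₀ (by norm_num) (Sp_card hadj S)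
    have h4 : (2 : ℝ) ^ (2 * dd G S) = Real.exp ((dd G S : ℝ) * (2 * Real.log 2)) := by
      rw [show (dd G S : ℝ) * (2 * Real.log 2) = ((2 * dd G S : ℕ) : ℝ) * Real.log 2 by
        push_cast; ring, Real.exp_nat_mul, Real.exp_log (by norm_num)]
    calc Real.exp (-((dd G S : ℝ) * (L / 5))) * ∏ e ∈ Sp μ S,
          (1 + (m : ℝ) * (((univ.filter fun i => e ∈ T i).card : ℝ) / m))
        ≤ Real.exp (-((dd G S : ℝ) * (L / 5))) * Real.exp ((dd G S : ℝ) * (2 * Real.log 2)) :=
          mul_le_mul_of_nonneg_left ((h1.trans h2).trans h4.le) (Real.exp_pos _).le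
      _ = Real.exp (-(dd G S * (L / 5 - 2 * Real.log 2))) := by
          rw [← Real.exp_add]
          congr 1
          ring
  have hlt := lt_of_le_of_lt hB3 hright
  refine ⟨B, hB1, ?_, ?_⟩
  · intro p hp q hq hpq
    obtain ⟨i, hi⟩ := hB2 p hp
    obtain ⟨j, hj⟩ := hB2 q hq
    exact hT2 i j p hi q hj fun h => hpq (Prod.mk.inj h).2
  · intro S hS hkS
    have hSF : S ∈ F := by rw [hF, mem_filter]; exact ⟨mem_univ _, hS, hkS⟩
    have h1 : Real.exp (-((dd G S : ℝ) * (L / 5))) *
        ∏ e ∈ Sp μ S, (1 + (m : ℝ) * if e ∈ B then 1 else 0) < 1 := by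
      refine lt_of_le_of_lt (single_le_sum (f := fun S => Real.exp (-((dd G S : ℝ) * (L / 5))) *
        ∏ e ∈ Sp μ S, (1 + (m : ℝ) * if e ∈ B then 1 else 0)) (fun S' _ => ?_) hSF) hlt
      refine mul_nonneg (Real.exp_pos _).le (prod_nonneg fun e _ => ?_)
      split_ifs <;> positivity
    have h2 : ∏ e ∈ Sp μ S, (1 + (m : ℝ) * if e ∈ B then 1 else 0)
        = Real.exp (((Sp μ S ∩ B).card : ℝ) * L) := by
      have h4 : ∏ e ∈ Sp μ S, (1 + (m : ℝ) * if e ∈ B then 1 else 0)
          = ∏ e ∈ Sp μ S, if e ∈ B then ((m : ℝ) + 1) else 1 := by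
        refine prod_congr rfl fun e _ => ?_
        split_ifs <;> ring
      rw [h4, prod_ite_mem, prod_const, hLm, Real.exp_nat_mul, Real.exp_log (by positivity)]
    rw [h2, ← Real.exp_add, Real.exp_lt_one_iff] at h1
    have hLpos : 0 < L := by linarith
    have h5 : ((Sp μ S ∩ B).card : ℝ) < dd G S / 5 := by
      by_contra hcon
      rw [not_lt] at hcon
      have := mul_le_mul_of_nonneg_right hcon hLpos.le
      linarith
    have h6 : (5 : ℝ) * (Sp μ S ∩ B).card < dd G S := by linarith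
    have h7 : 5 * (Sp μ S ∩ B).card < dd G S := by exact_mod_cast h6
    exact h7.le

/-- The flow for one choice of the parameters. -/
theorem core (h3 : ∀ v, G.degree v = 3) {k κ m : ℕ} (hc : CycConn G k) (hg : Gir G k)
    (hm0 : 0 < m) (hm : 2 * (m * (4 * (3 * 2 ^ 10))) ≤ k) (hK0 : 0 < κ) (hKk : κ + 2 ≤ k) {L : ℝ}
    (hLm : L = Real.log (m + 1)) (hL : 95 ≤ L)
    (hn : Real.log (2 * (Fintype.card V + 1)) ≤ κ * L / 100) :
    ∀ i : ℕ, 5 ≤ i → HasNZFlow (ZMod i) G := by
  classical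
  set ν : V → ℕ := fun v : V => ((Fintype.equivFin V v : Fin _) : ℕ) with hνdef
  have hν : Function.Injective ν := fun u v h => (Fintype.equivFin V).injective (Fin.ext h)
  have hk : 3 ≤ k := by omega
  obtain ⟨μ, hadj, hμ⟩ := exists_mu G h3 hk hc
  obtain ⟨B, hB1, hB2, hB3⟩ := exists_thin h3 hadj hμ hc hg hm0 hm hK0 hKk hLm hL hn
  obtain ⟨x, hx, hxs, hx1⟩ := exists_x hB1 (even_card G h3)
  have hxadj : ∀ p q, x p q ≠ 0 → G.Adj p q := by
    intro p q hpq
    rcases hxs p q hpq with h | h | ⟨-, h⟩ | ⟨-, h⟩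
    · exact h.1
    · exact h.1.symm
    · rw [h]; exact hadj p
    · rw [h]; exact (hadj q).symm
  obtain ⟨Jv, φ, hJ1, hJ2, hφ3, hφ0, hφ⟩ := exists_phi G (ν := ν) hν h3 hadj hμ hx hxadj hx1
  have hBJ : ∀ u ∈ Jv, u ∈ B ∨ μ u ∈ B := by
    intro u hu
    rw [hJ1] at hu
    rcases hxs u (μ u) (by rw [hu]; decide) with h | h | ⟨h, -⟩ | ⟨h, -⟩
    · exact absurd rfl h.2
    · exact absurd (hμ u).symm h.2
    · exact Or.inl h
    · exact Or.inr h
  have hflow : HasFlow (ZMod 5) (Prod.fst : V × V → V) Prod.snd (K.oe ν G) := by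
    refine extend_bond hν h3 hk hc hμ hJ2 hφ3 hφ0 hφ ?_
    intro W hW hW' h2
    rcases Nat.lt_or_ge (dd G W) k with hlt | hge
    · refine thin_small h3 hc hμ hJ2 ?_ hW hW' hlt h2
      intro u hu v hv hne hne' hmem
      have key : ∀ u' v', (u' = u ∨ u' = μ u) → (v' = v ∨ v' = μ v) → u' ∈ B → v' ∈ B →
          False := by
        intro u' v' hu' hv' hu1 hv1
        have hneq : u' ≠ v' := by
          rintro rfl
          rcases hu' with h | h <;> rcases hv' with h' | h'
          · exact hne (h'.symm.trans h)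
          · apply hne'
            rw [← h, h', hμ]
          · apply hne'
            rw [← h', h]
          · apply hne
            rw [← hμ v, ← h', h, hμ]
        refine hB2 u' hu1 v' hv1 hneq ⟨u, v, ?_, ?_, hmem⟩
        · rcases hu' with h | h
          · exact Or.inl h.symm
          · right; rw [h, hμ]
        · rcases hv' with h | h
          · exact Or.inl h.symm
          · right; rw [h, hμ]
      rcases hBJ u hu with h | h <;> rcases hBJ v hv with h' | h'
      · exact key u v (Or.inl rfl) (Or.inl rfl) h h'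
      · exact key u (μ v) (Or.inl rfl) (Or.inr rfl) h h'
      · exact key (μ u) v (Or.inr rfl) (Or.inl rfl) h h'
      · exact key (μ u) (μ v) (Or.inr rfl) (Or.inr rfl) h h'
    · obtain ⟨u0, hu0⟩ : (Jends μ Jv W).Nonempty := by
        rw [← card_pos]
        unfold jj at h2
        omega
      rw [mem_Jends] at hu0
      have hbond : Bond G W := ⟨hW, hW', ⟨u0, hu0.1⟩, ⟨μ u0, mem_compl.2 hu0.2.2⟩⟩
      refine le_trans (Nat.mul_le_mul_left 5 ?_) (hB3 W hbond hge)
      unfold jj
      refine card_le_card_of_injOn (fun u => if u ∈ B then u else μ u) ?_ ?_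
      · intro u hu
        rw [mem_coe, mem_Jends] at hu
        rw [mem_coe, mem_inter, mem_Sp]
        beta_reduce
        split_ifs with h
        · exact ⟨fun h' => hu.2.2 (h'.1 hu.1), h⟩
        · refine ⟨fun h' => ?_, (hBJ u hu.2.1).resolve_left h⟩
          rw [hμ] at h'
          exact hu.2.2 (h'.2 hu.1)
      · intro u hu v hv huv
        rw [mem_coe, mem_Jends] at hu hv
        beta_reduce at huv
        split_ifs at huv with h h'
        · exact huv
        · exact absurd (huv ▸ hu.1) hv.2.2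
        · exact absurd (huv ▸ hv.1) hu.2.2
        · rw [← hμ u, huv, hμ]
  exact K.lift_five (K.hasNZ_of_hasFlow hν hflow)

/-- A 2-factor. -/
theorem exists_two_factor (h3 : ∀ v, G.degree v = 3) {k : ℕ} (hk : 3 ≤ k) (hc : CycConn G k) :
    ∃ F : SimpleGraph V, F ≤ G ∧ ∀ v, (F.neighborSet v).ncard = 2 := by
  classical
  obtain ⟨μ, hadj, hμ⟩ := exists_mu G h3 hk hc
  let F : SimpleGraph V :=
    { Adj := fun u v => G.Adj u v ∧ v ≠ μ u
      symm := ⟨fun u v h => ⟨h.1.symm, fun h' => h.2 (by rw [h', hμ])⟩⟩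
      loopless := ⟨fun v h => G.irrefl h.1⟩ }
  refine ⟨F, fun u v h => h.1, fun v => ?_⟩
  have h1 : F.neighborSet v = ((G.neighborFinset v).erase (μ v) : Set V) := by
    ext w
    simp only [mem_neighborSet, coe_erase, coe_neighborFinset, Set.mem_sdiff,
      Set.mem_singleton_iff]
    exact Iff.rfl
  rw [h1, Set.ncard_coe_finset, card_erase_of_mem (by
    rw [mem_neighborFinset]; exact hadj v), card_neighborFinset_eq_degree, h3]

/-- THEOREM (C). -/
theorem main : ∃ C : ℝ, 0 < C ∧ ∀ {V : Type} [Fintype V] [DecidableEq V] (G : SimpleGraph V)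
    [DecidableRel G.Adj], (∀ v, G.degree v = 3) → ∀ k : ℕ, CycConn G k →
    C * Real.log (Fintype.card V) ≤ k * Real.log k →
    ∀ i : ℕ, 5 ≤ i → HasNZFlow (ZMod i) G := by
  refine ⟨Real.exp 120, Real.exp_pos _, ?_⟩
  intro V _ _ G _ h3 k hc hk
  classical
  rcases isEmpty_or_nonempty V with hV | ⟨⟨v0⟩⟩
  · intro i _
    exact ⟨fun _ _ => 0, fun u => hV.elim u, fun u => hV.elim u, fun u => hV.elim u⟩
  have hn4 : 4 ≤ Fintype.card V := by
    have h1 := G.degree_lt_card_verts v0
    rw [h3] at h1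
    exact h1
  have hn4r : (4 : ℝ) ≤ Fintype.card V := by exact_mod_cast hn4
  set n : ℝ := (Fintype.card V : ℝ) with hnd
  have hlog4 : (1 : ℝ) ≤ Real.log n := by
    rw [Real.le_log_iff_exp_le (by linarith)]
    have := Real.exp_one_lt_d9
    linarith
  have he10 : (110 : ℝ) ≤ Real.exp 10 := by
    have h1 := Real.exp_one_gt_d9
    have h2 : Real.exp 10 = Real.exp 1 ^ 10 := by rw [← Real.exp_nat_mul]; norm_num
    rw [h2]
    have h4 : (2 : ℝ) ^ 10 ≤ Real.exp 1 ^ 10 := pow_le_pow_left₀ (by norm_num) (by linarith) 10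
    refine le_trans (by norm_num) h4
  have hklarge : Real.exp 110 ≤ k := by
    by_contra hcon
    rw [not_le] at hcon
    rcases Nat.eq_zero_or_pos k with h0 | hpos
    · rw [h0] at hk
      simp only [Nat.cast_zero, zero_mul] at hk
      have := mul_pos (Real.exp_pos 120) (by linarith : 0 < Real.log n)
      linarith
    · have hkr : (0 : ℝ) < k := by exact_mod_cast hpos
      have h1 : Real.log k ≤ 110 := by
        rw [Real.log_le_iff_le_exp hkr]; exact hcon.le
      have h2 : (k : ℝ) * Real.log k ≤ k * 110 := mul_le_mul_of_nonneg_left h1 hkr.le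
      have h4 : (k : ℝ) * 110 < Real.exp 110 * 110 := mul_lt_mul_of_pos_right hcon (by norm_num)
      have h5 : Real.exp 110 * 110 ≤ Real.exp 110 * Real.exp 10 :=
        mul_le_mul_of_nonneg_left he10 (Real.exp_pos _).le
      have h6 : Real.exp 110 * Real.exp 10 = Real.exp 120 := by
        rw [← Real.exp_add]; norm_num
      have h7 : Real.exp 120 * 1 ≤ Real.exp 120 * Real.log n :=
        mul_le_mul_of_nonneg_left hlog4 (Real.exp_pos _).le
      linarith
  have h1000 : (1000000 : ℝ) ≤ Real.exp 110 := by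
    have h1 := Real.exp_one_gt_d9
    have h2 : Real.exp 110 = Real.exp 1 ^ 110 := by rw [← Real.exp_nat_mul]; norm_num
    rw [h2]
    have h4 : (2 : ℝ) ^ 20 ≤ Real.exp 1 ^ 110 := by
      calc (2 : ℝ) ^ 20 ≤ Real.exp 1 ^ 20 := pow_le_pow_left₀ (by norm_num) (by linarith) 20
        _ ≤ Real.exp 1 ^ 110 := pow_le_pow_right₀ (by linarith) (by norm_num)
    refine le_trans (by norm_num) h4
  have hkr6 : (1000000 : ℝ) ≤ k := h1000.trans hklarge
  have hk6 : 1000000 ≤ k := by exact_mod_cast hkr6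
  have hkpos : (0 : ℝ) < k := by linarith
  have hlk : 110 ≤ Real.log k := by
    rw [Real.le_log_iff_exp_le hkpos]; exact hklarge
  rcases gir_of_cyc h3 hc with hg | hsmall
  · set m : ℕ := k / 24576 with hmdef
    have hm1 : 24576 * m ≤ k := Nat.mul_div_le k 24576
    have hm2 : k < 24576 * (m + 1) := by
      have := Nat.div_add_mod k 24576
      have := Nat.mod_lt k (show 0 < 24576 by norm_num)
      omega
    have hm0 : 0 < m := by omega
    have hm2r : (k : ℝ) < 24576 * (m + 1) := by exact_mod_cast hm2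
    have hL1 : Real.log k - 11 ≤ Real.log (m + 1) := by
      have h1 : Real.log k ≤ Real.log (24576 * (m + 1)) := Real.log_le_log hkpos hm2r.le
      rw [Real.log_mul (by norm_num) (by positivity)] at h1
      have h2 : Real.log 24576 ≤ 11 := by
        rw [Real.log_le_iff_le_exp (by norm_num)]
        have h4 := Real.exp_one_gt_d9
        have h5 : Real.exp 11 = Real.exp 1 ^ 11 := by rw [← Real.exp_nat_mul]; norm_num
        rw [h5]
        have h6 : (2.7 : ℝ) ^ 11 ≤ Real.exp 1 ^ 11 :=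
          pow_le_pow_left₀ (by norm_num) (by linarith) 11
        refine le_trans (by norm_num) h6
      linarith
    refine core h3 (κ := k - 2) hc hg hm0 ?_ (by omega) (by omega) rfl (by linarith) ?_
    · norm_num
      omega
    · have hK : ((k - 2 : ℕ) : ℝ) = (k : ℝ) - 2 := by
        rw [Nat.cast_sub (by omega)]; norm_num
      rw [hK]
      have h1 : Real.log (2 * (n + 1)) ≤ 2 * Real.log n := by
        rw [show 2 * Real.log n = Real.log (n ^ 2) by rw [Real.log_pow]; norm_num]
        exact Real.log_le_log (by linarith) (by nlinarith)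
      have h2 : 800 * Real.log n ≤ k * Real.log k := by
        refine le_trans (mul_le_mul_of_nonneg_right ?_ (by linarith)) hk
        have : Real.exp 110 ≤ Real.exp 120 := Real.exp_le_exp.2 (by norm_num)
        linarith
      have h4 : (k : ℝ) / 2 * (Real.log k / 2) ≤ (k - 2) * Real.log (m + 1) := by
        refine mul_le_mul (by linarith) (by linarith) (by linarith) (by linarith)
      have h5 : Real.log (2 * (n + 1)) ≤ (k : ℝ) * Real.log k / 400 := by linarith
      rw [hnd] at h5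
      refine h5.trans ?_
      linarith
  · obtain ⟨F, hF, hF2⟩ := exists_two_factor h3 (by omega : 3 ≤ k) hc
    refine small_case h3 hsmall ?_ F hF hF2
    intro S a1 a2
    exact le_trans (by omega) (hc S a1 a2)

end Pool.Agent.Thin5
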