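import Mathlib
import Pool.Agent.Work.MP_974d84_co_log.Defs
import Pool.Agent.Work.MP_974d84_co_exp.Main

/-!
# Partitions of the vertex set into expanding parts
-/

set_option linter.unusedSectionVars false

namespace Pool.Agent.Thin5

open Finset SimpleGraph Pool.Agent.Exp Pool.Agent.Log5
open Pool.Agent.Work.MP_314beb_co (cut)

variable {V : Type} [Fintype V] [DecidableEq V] (G : SimpleGraph V) [DecidableRel G.Adj]
variable {β : Type} [Fintype β] [DecidableEq β]

/-- The part with label `i`. -/
def part (l : V → β) (i : β) : Finset V := univ.filter fun v => l v = i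

/-- The parts in which `S` has the majority. -/
def patt (l : V → β) (S : Finset V) : Finset β :=
  univ.filter fun i => (part l i).card < 2 * (S ∩ part l i).card

/-- The points of the minority of their part. -/
def mino (l : V → β) (S : Finset V) : Finset V := univ.filter fun v => ¬ (v ∈ S ↔ l v ∈ patt l S)

/-- Every part induces a graph of edge expansion at least `1 / e`. -/
def Exd (l : V → β) (e : ℕ) : Prop := ∀ (i : β) (X : Finset V), X ⊆ part l i →
  2 * X.card ≤ (part l i).card → X.card ≤ e * ((cut G X).filter fun p => l p.2 = i).card

/-- The set `S` splits the ball of radius `R` around `u`. -/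
def SplitB (R : ℕ) (S : Finset V) (u : V) : Prop :=
  ∃ v ∈ Bl G.Adj R u, ∃ w ∈ Bl G.Adj R u, v ∈ S ∧ w ∉ S

end Pool.Agent.Thin5
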