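import Mathlib
import Pool.Agent.Work.MP_974d84_co_exp.Grow

/-!
Growth of balls inside a vertex set with at most `t` boundary edges (`Pool.Agent.Exp.ball_big` is
the case `t = 5`).
-/

set_option linter.unusedSectionVars false

namespace Pool.Agent.Thin5

open Finset SimpleGraph Pool.Agent.Exp
open Pool.Agent.Work.MP_314beb_co

variable {V : Type*} [Fintype V] [DecidableEq V] (G : SimpleGraph V) [DecidableRel G.Adj]

/-- Balls of radius `r + t` inside a connected set, with at most `t` boundary edges at them, have at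
least `2 ^ r` vertices (indeed `t - 2 + 2 ^ (r + 2)`). -/
theorem ball_big_strong (h3 : ∀ v, G.degree v = 3) {Z : Finset V} (hZ : Joined G Z) {u : V}
    (hu : u ∈ Z) {r t : ℕ} (ht : 2 ≤ t)
    (hsm : ∀ A : Finset V, A.card ≤ 3 * 2 ^ (r + t) → (G.induce (A : Set V)).IsAcyclic)
    (hne : ¬ Z ⊆ Bl (RW G Z) (r + t) u)
    (hb : (bd G Z (Bl (RW G Z) (r + t) u)).card ≤ t) :
    t + 2 ^ (r + 2) ≤ (Bl (RW G Z) (r + t) u).card + 2 := by
  have hsm' : ∀ i ≤ r + t, (G.induce (Bl (RW G Z) i u : Set V)).IsAcyclic := by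
    intro i hi
    apply hsm
    have h1 : Bl (RW G Z) i u ⊆ Bl G.Adj (r + t) u :=
      (Bl_mono hi u).trans (Bl_rel (fun _ _ h => h.1) _ _)
    have h2 := card_le_card h1
    have h4 := Bl_card G h3 (r + t) u
    omega
  have key : ∀ s : ℕ, t - 1 + s ≤ r + t →
      t + 2 ^ (s + 1) ≤ (Bl (RW G Z) (t - 1 + s) u).card + 2 := by
    intro s
    induction s with
    | zero =>
      intro h
      have := Bl_grow hZ hu (t - 1) fun hs => hne (hs.trans (Bl_mono (by omega) u))
      simp only [zero_add, pow_one, add_zero]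
      omega
    | succ s ih =>
      intro h
      have h1 := ih (by omega)
      have h2 := grow_step G h3 hu (t - 1 + s) (hsm' _ (by omega)) (hsm' _ (by omega))
      have h4 : (bd G Z (Bl (RW G Z) (t - 1 + s) u)).card ≤ t := by
        refine le_trans (card_le_card ?_) hb
        intro p hp
        rw [mem_bd] at hp ⊢
        exact ⟨hp.1, Bl_mono (by omega) u hp.2⟩
      have h5 : 2 ^ (s + 1 + 1) = 2 * 2 ^ (s + 1) := by ring
      have h6 : t - 1 + (s + 1) = t - 1 + s + 1 := by ring
      rw [h6]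
      omega
  have h7 := key (r + 1) (by omega)
  rwa [show t - 1 + (r + 1) = r + t by omega, show r + 1 + 1 = r + 2 by ring] at h7

/-- Balls of radius `r + t` inside a connected set, with at most `t` boundary edges at them, have at
least `2 ^ r` vertices. -/
theorem ball_bigT (h3 : ∀ v, G.degree v = 3) {Z : Finset V} (hZ : Joined G Z) {u : V}
    (hu : u ∈ Z) {r t : ℕ}
    (hsm : ∀ A : Finset V, A.card ≤ 3 * 2 ^ (r + t) → (G.induce (A : Set V)).IsAcyclic)
    (hne : ¬ Z ⊆ Bl (RW G Z) (r + t) u)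
    (hb : (bd G Z (Bl (RW G Z) (r + t) u)).card ≤ t) (ht : 2 ≤ t) :
    2 ^ r ≤ (Bl (RW G Z) (r + t) u).card := by
  have h := ball_big_strong G h3 hZ hu ht hsm hne hb
  have : 2 ^ (r + 2) = 4 * 2 ^ r := by ring
  have : 0 < 2 ^ r := by positivity
  omega

end Pool.Agent.Thin5
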