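import Mathlib
import Pool.Agent.Work.MP_974d84_co_thin.Defs2
import Pool.Agent.Work.MP_974d84_co_thin.GrowT

/-!
# Comparison with a cut of the same pattern
-/

set_option linter.unusedSectionVars false

namespace Pool.Agent.Thin5

open Finset SimpleGraph Pool.Agent.Exp Pool.Agent.Log5
open Pool.Agent.Work.MP_314beb_co (cut)

/-- Counting the sets of a disjoint family which are large in `X`. -/
theorem count_big {ι α : Type*} [DecidableEq α] (E : Finset ι) (B : ι → Finset α)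
    (X : Finset α) (hd : ∀ u ∈ E, ∀ v ∈ E, u ≠ v → Disjoint (B u) (B v))
    (hX : ∀ u ∈ E, B u ⊆ X) (N w : ℕ) :
    N * (E.filter fun u => N ≤ w * (B u).card).card ≤ w * X.card := by
  classical
  set F := E.filter fun u => N ≤ w * (B u).card with hF
  calc N * F.card = ∑ u ∈ F, N := by rw [sum_const, smul_eq_mul, mul_comm]
    _ ≤ ∑ u ∈ F, w * (B u).card := sum_le_sum fun u hu => (mem_filter.1 hu).2
    _ = w * (F.biUnion B).card := by
      rw [← mul_sum, card_biUnion]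
      intro u hu v hv hne
      exact hd u (mem_filter.1 hu).1 v (mem_filter.1 hv).1 hne
    _ ≤ w * X.card := by
      refine Nat.mul_le_mul_left w (card_le_card ?_)
      intro x hx
      obtain ⟨u, hu, hx⟩ := mem_biUnion.1 hx
      exact hX u (mem_filter.1 hu).1 hx

variable {V : Type} [Fintype V] [DecidableEq V] {G : SimpleGraph V} [DecidableRel G.Adj]
variable {β : Type} [Fintype β] [DecidableEq β]

/-- One side of a cut: most of the disjoint balls have a point outside `X` and `X₁`. -/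
theorem side_good (h3 : ∀ v, G.degree v = 3) {Z : Finset V} (hZ : Joined G Z) {f : V → V}
    {E : Finset V} (hf : ∀ u ∈ E, f u ∈ Z) {r e : ℕ} (hr : 400 * e ≤ 2 ^ r) (he : 1 ≤ e)
    (hsm : ∀ A : Finset V, A.card ≤ 3 * 2 ^ (r + 50) → (G.induce (A : Set V)).IsAcyclic)
    (hdis : ∀ u ∈ E, ∀ v ∈ E, u ≠ v →
      Disjoint (Bl (RW G Z) (r + 50) (f u)) (Bl (RW G Z) (r + 50) (f v)))
    (hc : 3 * 2 ^ (r + 50) < Z.card) {X X₁ : Finset V} (hX : X.card ≤ e * dd G Z)
    (hX₁ : X₁.card ≤ e * dd G Z) :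
    ∃ E' : Finset V, 100 * E'.card ≤ 3 * dd G Z ∧
      ∀ u ∈ E, u ∉ E' → ∃ v ∈ Bl (RW G Z) (r + 50) (f u), v ∉ X ∧ v ∉ X₁ := by
  classical
  set R := r + 50 with hR
  let A : V → Finset V := fun u => Bl (RW G Z) R (f u)
  have hAd : ∀ u ∈ E, ∀ v ∈ E, u ≠ v → Disjoint (A u) (A v) := hdis
  -- the boundary edges
  have c1 := count_big E (fun u => bd G Z (A u)) (cut G Z)
    (fun u hu v hv hne => by
      rw [Finset.disjoint_left]
      intro x hx hx'
      exact (Finset.disjoint_left.1 (hAd u hu v hv hne)) ((mem_bd G).1 hx).2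
        ((mem_bd G).1 hx').2)
    (fun u _ x hx => ((mem_bd G).1 hx).1) 51 1
  have cX : ∀ Y : Finset V, Y.card ≤ e * dd G Z →
      200 * (E.filter fun u => 2 ^ r ≤ 2 * (A u ∩ Y).card).card ≤ dd G Z := by
    intro Y hY
    have c2 := count_big E (fun u => A u ∩ Y) Y
      (fun u hu v hv hne => (hAd u hu v hv hne).mono inter_subset_left inter_subset_left)
      (fun u _ => inter_subset_right) (2 ^ r) 2
    set m := (E.filter fun u => 2 ^ r ≤ 2 * (A u ∩ Y).card).card with hm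
    have h1 : 400 * e * m ≤ 2 * (e * dd G Z) :=
      (Nat.mul_le_mul_right m hr).trans (c2.trans (Nat.mul_le_mul_left 2 hY))
    have h2 : (2 * e) * (200 * m) ≤ (2 * e) * dd G Z := by
      calc (2 * e) * (200 * m) = 400 * e * m := by ring
        _ ≤ 2 * (e * dd G Z) := h1
        _ = (2 * e) * dd G Z := by ring
    exact Nat.le_of_mul_le_mul_left h2 (by omega)
  have c2 := cX X hX
  have c3 := cX X₁ hX₁
  refine ⟨(E.filter fun u => 51 ≤ 1 * (bd G Z (A u)).card) ∪
    ((E.filter fun u => 2 ^ r ≤ 2 * (A u ∩ X).card) ∪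
      (E.filter fun u => 2 ^ r ≤ 2 * (A u ∩ X₁).card)), ?_, ?_⟩
  · have d1 := card_union_le (E.filter fun u => 51 ≤ 1 * (bd G Z (A u)).card)
      ((E.filter fun u => 2 ^ r ≤ 2 * (A u ∩ X).card) ∪
        (E.filter fun u => 2 ^ r ≤ 2 * (A u ∩ X₁).card))
    have d2 := card_union_le (E.filter fun u => 2 ^ r ≤ 2 * (A u ∩ X).card)
      (E.filter fun u => 2 ^ r ≤ 2 * (A u ∩ X₁).card)
    have c1' : 51 * (E.filter fun u => 51 ≤ 1 * (bd G Z (A u)).card).card ≤ dd G Z := by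
      have : (cut G Z).card = dd G Z := rfl
      rw [this, one_mul] at c1
      exact c1
    omega
  · intro u hu hnot
    rw [mem_union, mem_union, mem_filter, mem_filter, mem_filter] at hnot
    push Not at hnot
    obtain ⟨n1, n2, n3⟩ := hnot
    have n1 := n1 hu
    have n2 := n2 hu
    have n3 := n3 hu
    have hne : ¬ Z ⊆ Bl (RW G Z) R (f u) := by
      intro hs
      have h1 := card_le_card (hs.trans (Bl_rel (R' := G.Adj) (fun _ _ h => h.1) R (f u)))
      have h2 := Bl_card G h3 R (f u)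
      omega
    have hbig : 2 ^ r ≤ (A u).card :=
      ball_bigT G h3 hZ (hf u hu) hsm hne (by show (bd G Z (A u)).card ≤ 50; omega) (by norm_num)
    by_contra hno
    push Not at hno
    have hsub : A u ⊆ (A u ∩ X) ∪ (A u ∩ X₁) := by
      intro v hv
      rw [mem_union, mem_inter, mem_inter]
      by_cases hvX : v ∈ X
      · exact Or.inl ⟨hv, hvX⟩
      · exact Or.inr ⟨hv, hno v hv hvX⟩
    have h5 := (card_le_card hsub).trans (card_union_le _ _)
    omega

/-- Comparison with a cut of the same pattern: if few of the marked edges leaving `S` have a ball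
which is split by `S₁`, then few marked edges leave `S`. -/
theorem compare (h3 : ∀ v, G.degree v = 3) {μ : V → V} (hadj : ∀ v, G.Adj v (μ v))
    (hμ : ∀ v, μ (μ v) = v) {Jv : Finset V} (hJ : ∀ v ∈ Jv, μ v ∈ Jv) {l : V → β} {e r : ℕ}
    (hr : 400 * e ≤ 2 ^ r) (he : 1 ≤ e)
    (hsm : ∀ A : Finset V, A.card ≤ 3 * 2 ^ (r + 50) → (G.induce (A : Set V)).IsAcyclic)
    (hfar : ∀ u ∈ Jv, ∀ v ∈ Jv, v ≠ u → v ≠ μ u → v ∉ Bl G.Adj (2 * (r + 50)) u)
    {S S₁ : Finset V} (hS : Joined G S) (hS' : Joined G Sᶜ)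
    (hc1 : 3 * 2 ^ (r + 50) < S.card) (hc2 : 3 * 2 ^ (r + 50) < Sᶜ.card)
    (hp : patt l S₁ = patt l S) (hX : (mino l S).card ≤ e * dd G S)
    (hX₁ : (mino l S₁).card ≤ e * dd G S) {Y : Finset V}
    (hY : ∀ u ∈ Jends μ Jv S, SplitB G (r + 51) S₁ u → u ∈ Y)
    (hY1 : 10 * Y.card ≤ dd G S) : 5 * jj μ Jv S ≤ dd G S := by
  classical
  have hRW : ∀ Z : Finset V, ∀ u v, RW G Z u v → RW G Z v u :=
    fun Z u v h => ⟨h.1.symm, h.2.2, h.2.1⟩
  have hdis : ∀ Z : Finset V, ∀ u ∈ Jv, ∀ v ∈ Jv, v ≠ u → v ≠ μ u →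
      Disjoint (Bl (RW G Z) (r + 50) u) (Bl (RW G Z) (r + 50) v) := by
    intro Z u hu v hv h1 h2
    rw [Finset.disjoint_left]
    intro x hx hx'
    have h5 := Bl_comp hx (Bl_symm (hRW Z) hx')
    rw [show r + 50 + (r + 50) = 2 * (r + 50) by ring] at h5
    exact hfar u hu v hv h1 h2 (Bl_rel (fun _ _ h => h.1) _ _ h5)
  obtain ⟨E₁, e1, g1⟩ := side_good (G := G) h3 hS (f := fun v => v) (E := Jends μ Jv S)
    (fun u hu => ((mem_Jends μ Jv).1 hu).1) hr he hsm
    (fun u hu v hv hne => by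
      have hu := (mem_Jends μ Jv).1 hu
      have hv := (mem_Jends μ Jv).1 hv
      exact hdis S u hu.2.1 v hv.2.1 hne.symm (by rintro rfl; exact hu.2.2 hv.1))
    hc1 hX hX₁
  obtain ⟨E₂, e2, g2⟩ := side_good (G := G) h3 hS' (f := μ) (E := Jends μ Jv S)
    (fun u hu => mem_compl.2 ((mem_Jends μ Jv).1 hu).2.2) hr he hsm
    (fun u hu v hv hne => by
      have hu := (mem_Jends μ Jv).1 hu
      have hv := (mem_Jends μ Jv).1 hv
      refine hdis Sᶜ (μ u) (hJ u hu.2.1) (μ v) (hJ v hv.2.1) ?_ ?_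
      · intro h
        exact hne (by rw [← hμ u, ← hμ v, h])
      · intro h
        rw [hμ u] at h
        exact hv.2.2 (h ▸ hu.1))
    hc2 (X := mino l S) (X₁ := mino l S₁) (by rw [dd_compl]; exact hX)
    (by rw [dd_compl]; exact hX₁)
  rw [dd_compl] at e2
  have hsub : Jends μ Jv S ⊆ (E₁ ∪ E₂) ∪ Y := by
    intro u hu
    by_contra hno
    rw [mem_union, mem_union] at hno
    push Not at hno
    obtain ⟨⟨n1, n2⟩, n3⟩ := hno
    obtain ⟨v, hv, v1, v2⟩ := g1 u hu n1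
    obtain ⟨w, hw, w1, w2⟩ := g2 u hu n2
    have hu' := (mem_Jends μ Jv).1 hu
    have hvS : v ∈ S := Bl_RW_sub hu'.1 _ hv
    have hwS : w ∉ S := mem_compl.1 (Bl_RW_sub (mem_compl.2 hu'.2.2) _ hw)
    simp only [mino, mem_filter, mem_univ, true_and, not_not] at v1 v2 w1 w2
    have a1 : v ∈ S₁ := by
      rw [v2, hp, ← v1]
      exact hvS
    have a2 : w ∉ S₁ := by
      rw [w2, hp, ← w1]
      exact hwS
    refine n3 (hY u hu ⟨v, ?_, w, ?_, a1, a2⟩)
    · exact Bl_mono (by omega) u (Bl_rel (R' := G.Adj) (fun _ _ h => h.1) _ _ hv)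
    · have b1 : μ u ∈ Bl G.Adj 1 u :=
        mem_Bl_succ.2 (Or.inr ⟨u, Bl_self 0 u, hadj u⟩)
      have b2 := Bl_comp b1 (Bl_rel (R' := G.Adj) (fun _ _ h => h.1) _ _ hw)
      rwa [show 1 + (r + 50) = r + 51 by ring] at b2
  have c1 := (card_le_card hsub).trans (card_union_le _ _)
  have c2 := card_union_le E₁ E₂
  unfold jj
  omega

end Pool.Agent.Thin5
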