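import Mathlib
import Pool.Agent.Work.MP_974d84_co_thin.Defs2
import Pool.Agent.Work.MP_974d84_co_log.Trace

/-!
# The majority patterns of the small cuts of a graph made of expanding parts
-/

set_option linter.unusedSectionVars false

namespace Pool.Agent.Thin5

open Finset SimpleGraph Pool.Agent.Exp Pool.Agent.Log5
open Pool.Agent.Work.MP_314beb_co (cut)

variable {V : Type} [Fintype V] [DecidableEq V] {G : SimpleGraph V} [DecidableRel G.Adj]
variable {β : Type} [Fintype β] [DecidableEq β]

theorem mem_part {l : V → β} {i : β} {v : V} : v ∈ part l i ↔ l v = i := by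
  unfold part; simp

theorem mem_patt {l : V → β} {S : Finset V} {i : β} :
    i ∈ patt l S ↔ (part l i).card < 2 * (S ∩ part l i).card := by
  unfold patt; simp

theorem mem_mino {l : V → β} {S : Finset V} {v : V} :
    v ∈ mino l S ↔ ¬ (v ∈ S ↔ l v ∈ patt l S) := by
  unfold mino; simp

/-- The minority in the part `i`. -/
def mi (l : V → β) (S : Finset V) (i : β) : Finset V := part l i ∩ mino l S

theorem mi_of_mem {l : V → β} {S : Finset V} {i : β} (h : i ∈ patt l S) :
    mi l S i = part l i \ S := by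
  ext v
  unfold mi
  rw [mem_inter, mem_sdiff, mem_part, mem_mino]
  constructor
  · rintro ⟨rfl, h2⟩
    exact ⟨rfl, fun h3 => h2 ⟨fun _ => h, fun _ => h3⟩⟩
  · rintro ⟨rfl, h2⟩
    exact ⟨rfl, fun h3 => h2 (h3.2 h)⟩

theorem mi_of_notMem {l : V → β} {S : Finset V} {i : β} (h : i ∉ patt l S) :
    mi l S i = part l i ∩ S := by
  ext v
  unfold mi
  rw [mem_inter, mem_inter, mem_part, mem_mino]
  constructor
  · rintro ⟨rfl, h2⟩
    refine ⟨rfl, ?_⟩
    by_contra h3
    exact h2 ⟨fun h4 => absurd h4 h3, fun h4 => absurd h4 h⟩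
  · rintro ⟨rfl, h2⟩
    exact ⟨rfl, fun h3 => h (h3.1 h2)⟩

theorem mi_small {l : V → β} (S : Finset V) (i : β) :
    2 * (mi l S i).card ≤ (part l i).card := by
  by_cases h : i ∈ patt l S
  · rw [mi_of_mem h]
    rw [mem_patt] at h
    have h1 := card_sdiff_add_card_inter (part l i) S
    rw [inter_comm] at h1
    omega
  · rw [mi_of_notMem h]
    rw [mem_patt] at h
    rw [inter_comm]
    omega

theorem mi_sub {l : V → β} (S : Finset V) (i : β) : mi l S i ⊆ part l i := inter_subset_left

theorem mi_cut {l : V → β} (S : Finset V) (i : β) :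
    ((cut G (mi l S i)).filter fun p => l p.2 = i).card ≤
      ((cut G S).filter fun p => l p.1 = i).card := by
  by_cases h : i ∈ patt l S
  · rw [mi_of_mem h]
    refine card_le_card_of_injOn (fun p => (p.2, p.1)) ?_ ?_
    · intro p hp
      rw [mem_coe, mem_filter, mem_cut, mem_sdiff, mem_sdiff, mem_part, mem_part] at hp
      rw [mem_coe, mem_filter, mem_cut]
      obtain ⟨⟨⟨h1, h2⟩, h3, h4⟩, h5⟩ := hp
      refine ⟨⟨?_, h2, h4.symm⟩, h5⟩
      by_contra h6
      exact h3 ⟨h5, h6⟩
    · intro p _ q _ h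
      have := Prod.ext_iff.1 h
      exact Prod.ext this.2 this.1
  · rw [mi_of_notMem h]
    refine card_le_card ?_
    intro p hp
    rw [mem_filter, mem_cut, mem_inter, mem_inter, mem_part, mem_part] at hp
    rw [mem_filter, mem_cut]
    obtain ⟨⟨⟨h1, h2⟩, h3, h4⟩, h5⟩ := hp
    exact ⟨⟨h2, fun h6 => h3 ⟨h5, h6⟩, h4⟩, h1⟩

theorem sum_cut {l : V → β} (S : Finset V) :
    ∑ i, ((cut G S).filter fun p => l p.1 = i).card = dd G S := by
  unfold dd
  exact (card_eq_sum_card_fiberwise (f := fun p : V × V => l p.1) (t := univ)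
    (fun _ _ => mem_coe.2 (mem_univ _))).symm

theorem mi_le {l : V → β} {e : ℕ} (hx : Exd G l e) (S : Finset V) (i : β) :
    (mi l S i).card ≤ e * ((cut G S).filter fun p => l p.1 = i).card :=
  (hx i _ (mi_sub S i) (mi_small S i)).trans (Nat.mul_le_mul_left _ (mi_cut S i))

/-- D5a: each point of the minority costs. -/
theorem mino_card {l : V → β} {e : ℕ} (hx : Exd G l e) (S : Finset V) :
    (mino l S).card ≤ e * dd G S := by
  have h1 : (mino l S).card = ∑ i, (mi l S i).card := by
    rw [card_eq_sum_card_fiberwise (f := l) (t := univ) (fun _ _ => mem_coe.2 (mem_univ _))]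
    refine sum_congr rfl fun i _ => ?_
    congr 1
    ext v
    unfold mi
    rw [mem_filter, mem_inter, mem_part, and_comm]
  rw [h1, ← sum_cut (l := l) S, mul_sum]
  exact sum_le_sum fun i _ => mi_le hx S i

theorem mi_count {l : V → β} {e : ℕ} (hx : Exd G l e) (S : Finset V) :
    (univ.filter fun i => (mi l S i).Nonempty).card ≤ dd G S := by
  rw [← sum_cut (l := l) S, card_filter]
  refine sum_le_sum fun i _ => ?_
  split_ifs with h
  · have h1 := mi_le hx S i
    have h2 := h.card_pos
    rcases Nat.eq_zero_or_pos ((cut G S).filter fun p => l p.1 = i).card with h3 | h3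
    · rw [h3, mul_zero] at h1; omega
    · exact h3
  · exact Nat.zero_le _

/-- The systems of points, one for each part. -/
def sys (l : V → β) : Finset (β → V) := Fintype.piFinset fun i => part l i

/-- The systems which avoid the minority of `S`. -/
def sysg (l : V → β) (S : Finset V) : Finset (β → V) := Fintype.piFinset fun i => part l i \ mi l S i

theorem sys_card {l : V → β} {e : ℕ} (hx : Exd G l e) (S : Finset V) :
    (sys l).card ≤ 2 ^ dd G S * (sysg l S).card := by
  have h1 : (sys l).card = ∏ i, (part l i).card := by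
    unfold sys; rw [Fintype.card_piFinset]
  have h2 : (sysg l S).card = ∏ i, (part l i \ mi l S i).card := by
    unfold sysg; rw [Fintype.card_piFinset]
  have h3 : ∏ i, (if (mi l S i).Nonempty then 2 else 1) =
      2 ^ (univ.filter fun i => (mi l S i).Nonempty).card := by
    rw [prod_ite, prod_const, prod_const_one, mul_one]
  calc (sys l).card = ∏ i, (part l i).card := h1
    _ ≤ ∏ i, ((if (mi l S i).Nonempty then 2 else 1) * (part l i \ mi l S i).card) := by
        refine prod_le_prod' fun i _ => ?_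
        have h4 := mi_small (l := l) S i
        have h5 := card_sdiff_of_subset (mi_sub (l := l) S i)
        split_ifs with h
        · omega
        · rw [not_nonempty_iff_eq_empty] at h
          rw [h, sdiff_empty, one_mul]
    _ = 2 ^ (univ.filter fun i => (mi l S i).Nonempty).card * (sysg l S).card := by
        rw [prod_mul_distrib, h3, h2]
    _ ≤ _ := Nat.mul_le_mul_right _ (Nat.pow_le_pow_right (by norm_num) (mi_count hx S))

theorem sysg_sub {l : V → β} {S : Finset V} {w : β → V} (hw : w ∈ sysg l S) (i : β) :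
    w i ∈ S ↔ i ∈ patt l S := by
  unfold sysg at hw
  rw [Fintype.mem_piFinset] at hw
  have h := hw i
  rw [mem_sdiff, mem_part] at h
  obtain ⟨h1, h2⟩ := h
  have h3 : w i ∉ mino l S := fun h3 => h2 (mem_inter.2 ⟨mem_part.2 h1, h3⟩)
  rw [mem_mino, not_not, h1] at h3
  exact h3

theorem sysg_sub_sys {l : V → β} (S : Finset V) : sysg l S ⊆ sys l := by
  intro w hw
  unfold sysg at hw
  unfold sys
  rw [Fintype.mem_piFinset] at hw ⊢
  exact fun i => (mem_sdiff.1 (hw i)).1

/-- D5b: the number of patterns. -/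
theorem patt_count (h3 : ∀ v, G.degree v = 3) {K k : ℕ} (hc : CycConn G k) (hKk : K ≤ k)
    (hK0 : 0 < K) (hg : Gir G K) {l : V → β} (hl : Function.Surjective l) {e : ℕ}
    (hx : Exd G l e) (Q : Finset (Finset β)) {d : ℕ}
    (hQ : ∀ Z ∈ Q, ∃ S, Big G K S ∧ dd G S = d ∧ patt l S = Z) :
    (Q.card : ℝ) ≤ 2 ^ d * (Real.exp (8 * d) * (2 * (Fintype.card β + 1)) ^ (8 * d / K + 1)) := by
  classical
  have hQ' : ∀ Z : Finset β, ∃ S, Z ∈ Q → Big G K S ∧ dd G S = d ∧ patt l S = Z := by
    intro Z
    by_cases hZ : Z ∈ Q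
    · obtain ⟨S, hS⟩ := hQ Z hZ
      exact ⟨S, fun _ => hS⟩
    · exact ⟨∅, fun h => absurd h hZ⟩
  choose s hs using hQ'
  set M : ℝ := Real.exp (8 * d) * (2 * (Fintype.card β + 1)) ^ (8 * d / K + 1) with hM
  have hsys : 0 < (sys l).card := by
    unfold sys
    rw [Fintype.card_piFinset]
    refine prod_pos fun i _ => ?_
    obtain ⟨v, hv⟩ := hl i
    exact card_pos.2 ⟨v, mem_part.2 hv⟩
  -- one system
  have h1 : ∀ w ∈ sys l, ((Q.filter fun Z => w ∈ sysg l (s Z)).card : ℝ) ≤ M := by
    intro w _
    set Qw := Q.filter fun Z => w ∈ sysg l (s Z) with hQw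
    have hinj : Set.InjOn s (Qw : Set (Finset β)) := by
      intro Z hZ Z' hZ' he
      rw [mem_coe, hQw, mem_filter] at hZ hZ'
      rw [← (hs Z hZ.1).2.2, ← (hs Z' hZ'.1).2.2, he]
    have hcard : (Qw.image s).card = Qw.card := card_image_of_injOn hinj
    have h4 := trace_bound h3 hc hKk hK0 hg (univ.image w) (Qw.image s) (by
        intro S hS
        obtain ⟨Z, hZ, rfl⟩ := mem_image.1 hS
        exact (hs Z (mem_filter.1 hZ).1).1) (by
        intro S hS S' hS' h
        obtain ⟨Z, hZ, rfl⟩ := mem_image.1 hS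
        obtain ⟨Z', hZ', rfl⟩ := mem_image.1 hS'
        rw [hQw, mem_filter] at hZ hZ'
        have : Z = Z' := by
          ext i
          have e1 := sysg_sub hZ.2 i
          have e2 := sysg_sub hZ'.2 i
          rw [(hs Z hZ.1).2.2] at e1
          rw [(hs Z' hZ'.1).2.2] at e2
          rw [← e1, ← e2]
          exact h (w i) (mem_image_of_mem _ (mem_univ _))
        rw [this]) (D := d) (a := 8 * d / K + 1) (by
        intro S hS
        obtain ⟨Z, hZ, rfl⟩ := mem_image.1 hS
        exact (hs Z (mem_filter.1 hZ).1).2.1.le)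
        ((Nat.lt_mul_div_succ (8 * d) hK0).le.trans (le_of_eq (Nat.mul_comm _ _)))
        (Nat.le_add_left 1 _)
    rw [hcard] at h4
    refine h4.trans ?_
    rw [hM]
    refine mul_le_mul_of_nonneg_left ?_ (Real.exp_nonneg _)
    refine pow_le_pow_left₀ (by positivity) ?_ _
    have : ((univ.image w).card : ℝ) ≤ Fintype.card β := by
      exact_mod_cast card_image_le.trans (le_of_eq card_univ)
    linarith
  -- double counting
  have h2 : (Q.card : ℝ) * (sys l).card ≤ 2 ^ d * M * (sys l).card := by
    calc (Q.card : ℝ) * (sys l).card = ∑ Z ∈ Q, ((sys l).card : ℝ) := by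
          rw [sum_const, nsmul_eq_mul]
      _ ≤ ∑ Z ∈ Q, 2 ^ d * ((sysg l (s Z)).card : ℝ) := by
          refine sum_le_sum fun Z hZ => ?_
          have := sys_card hx (s Z)
          rw [(hs Z hZ).2.1] at this
          exact_mod_cast this
      _ = 2 ^ d * ∑ Z ∈ Q, ∑ w ∈ sys l, (if w ∈ sysg l (s Z) then (1 : ℝ) else 0) := by
          rw [mul_sum]
          refine sum_congr rfl fun Z _ => ?_
          rw [sum_boole]
          congr 3
          ext w
          rw [mem_filter]
          exact ⟨fun h => ⟨sysg_sub_sys _ h, h⟩, fun h => h.2⟩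
      _ = 2 ^ d * ∑ w ∈ sys l, ((Q.filter fun Z => w ∈ sysg l (s Z)).card : ℝ) := by
          rw [sum_comm]
          congr 1
          refine sum_congr rfl fun w _ => ?_
          rw [sum_boole]
      _ ≤ 2 ^ d * ∑ w ∈ sys l, M := by
          refine mul_le_mul_of_nonneg_left (sum_le_sum h1) (by positivity)
      _ = 2 ^ d * M * (sys l).card := by
          rw [sum_const, nsmul_eq_mul]; ring
  have h5 : (0 : ℝ) < (sys l).card := by exact_mod_cast hsys
  exact le_of_mul_le_mul_right h2 h5

end Pool.Agent.Thin5
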