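import Mathlib
import Pool.Agent.Work.MP_974d84_co_thin.Defs2

/-!
# Disjoint balls which are split cost at least one cut edge each
-/

set_option linter.unusedSectionVars false

namespace Pool.Agent.Thin5

open Finset SimpleGraph Pool.Agent.Exp Pool.Agent.Log5
open Pool.Agent.Work.MP_314beb_co (cut)

variable {V : Type} [Fintype V] [DecidableEq V] {G : SimpleGraph V} [DecidableRel G.Adj]

/-- A ball with a point on the other side from its centre contains a cut edge. -/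
theorem exists_edge_in_ball {S : Finset V} {u : V} (n : ℕ) :
    ∀ w ∈ Bl G.Adj n u, ¬ (w ∈ S ↔ u ∈ S) →
      ∃ x ∈ Bl G.Adj n u, ∃ y ∈ Bl G.Adj n u, G.Adj x y ∧ x ∈ S ∧ y ∉ S := by
  induction n with
  | zero =>
    intro w hw h
    rw [mem_Bl_zero] at hw
    subst hw
    exact absurd Iff.rfl h
  | succ n ih =>
    intro w hw h
    rcases mem_Bl_succ.1 hw with h1 | ⟨z, hz, hzw⟩
    · obtain ⟨x, hx, y, hy, hxy⟩ := ih w h1 h
      exact ⟨x, Bl_mono (Nat.le_succ n) u hx, y, Bl_mono (Nat.le_succ n) u hy, hxy⟩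
    · by_cases hz' : (z ∈ S ↔ u ∈ S)
      · by_cases hzS : z ∈ S
        · exact ⟨z, Bl_mono (Nat.le_succ n) u hz, w, hw, hzw, hzS,
            fun hwS => h ⟨fun _ => hz'.1 hzS, fun _ => hwS⟩⟩
        · refine ⟨w, hw, z, Bl_mono (Nat.le_succ n) u hz, hzw.symm, ?_, hzS⟩
          by_contra hwS
          exact h ⟨fun h' => absurd h' hwS, fun h' => absurd (hz'.2 h') hzS⟩
      · obtain ⟨x, hx, y, hy, hxy⟩ := ih z hz hz'
        exact ⟨x, Bl_mono (Nat.le_succ n) u hx, y, Bl_mono (Nat.le_succ n) u hy, hxy⟩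

/-- A split ball contains a cut edge. -/
theorem edge_of_split {R : ℕ} {S : Finset V} {u : V} (h : SplitB G R S u) :
    ∃ p ∈ cut G S, p.1 ∈ Bl G.Adj R u ∧ p.2 ∈ Bl G.Adj R u := by
  obtain ⟨v, hv, w, hw, hvS, hwS⟩ := h
  have key : ∃ x ∈ Bl G.Adj R u, ∃ y ∈ Bl G.Adj R u, G.Adj x y ∧ x ∈ S ∧ y ∉ S := by
    by_cases hu : u ∈ S
    · exact exists_edge_in_ball R w hw fun h' => hwS (h'.2 hu)
    · exact exists_edge_in_ball R v hv fun h' => hu (h'.1 hvS)
  obtain ⟨x, hx, y, hy, hxy, hxS, hyS⟩ := key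
  exact ⟨(x, y), (mem_cut G).2 ⟨hxS, hyS, hxy⟩, hx, hy⟩

/-- D6c: disjoint balls which are split cost at least one cut edge each. -/
theorem split_card {R : ℕ} (S : Finset V) (A : Finset V)
    (hd : ∀ u ∈ A, ∀ v ∈ A, u ≠ v → Disjoint (Bl G.Adj R u) (Bl G.Adj R v))
    (hA : ∀ u ∈ A, SplitB G R S u) : A.card ≤ dd G S := by
  classical
  have h1 : ∀ u : A, ∃ p ∈ cut G S, p.1 ∈ Bl G.Adj R u.1 := fun u => by
    obtain ⟨p, hp, h, -⟩ := edge_of_split (hA u.1 u.2)
    exact ⟨p, hp, h⟩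
  choose f hf hf' using h1
  unfold dd
  rw [← card_attach (s := A)]
  refine card_le_card_of_injOn f (fun u _ => hf u) ?_
  intro u _ v _ huv
  by_contra hne
  have hne' : u.1 ≠ v.1 := fun h => hne (Subtype.ext h)
  refine disjoint_left.1 (hd u.1 u.2 v.1 v.2 hne') (hf' u) ?_
  rw [huv]
  exact hf' v

end Pool.Agent.Thin5
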