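import Mathlib
import Pool.Agent.Work.MP_974d84_co_thin.Defs2
import Pool.Agent.Work.MP_974d84_co_thin.Count
import Pool.Agent.Work.MP_974d84_co_thin.Parts

/-!
# Theorem (D), module D6a: the numbers
-/

set_option linter.unusedSectionVars false

namespace Pool.Agent.Thin5

open Finset SimpleGraph Pool.Agent.Exp Pool.Agent.Log5

variable {V : Type} [Fintype V] [DecidableEq V] {G : SimpleGraph V} [DecidableRel G.Adj]
variable {β : Type} [Fintype β] [DecidableEq β]

theorem level_bound2 {k K n N : ℕ} (hK0 : 0 < K) (hKk : K ≤ k) (hkn : k ≤ n) {L : ℝ}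
    (hL : 200 ≤ L) (hN : Real.log (2 * (N + 1)) ≤ K * L / 200)
    {c : ℝ} (hc : c ≤ 2 ^ n * (Real.exp (8 * n) * (2 * (N + 1)) ^ (8 * n / K + 1))) :
    c * Real.exp (-(n * (L / 10 - Real.log 2))) ≤ Real.exp (-n) := by
  have hKR : (0 : ℝ) < K := by exact_mod_cast hK0
  have hN0 : (0 : ℝ) < 2 * (N + 1) := by positivity
  have h1 : ((2 * (N + 1)) ^ (8 * n / K + 1) : ℝ) ≤ Real.exp ((9 * n) * L / 200) := by
    have : ((2 * (N + 1)) ^ (8 * n / K + 1) : ℝ)
        = Real.exp (((8 * n / K + 1 : ℕ) : ℝ) * Real.log (2 * (N + 1))) := by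
      rw [Real.exp_nat_mul, Real.exp_log hN0]
    rw [this]
    apply Real.exp_le_exp.2
    have h2 : (((8 * n / K + 1 : ℕ) : ℝ)) * K ≤ 9 * n := by
      have h3 : (8 * n / K + 1) * K ≤ 9 * n := by
        have := Nat.div_mul_le_self (8 * n) K
        nlinarith
      exact_mod_cast h3
    calc (((8 * n / K + 1 : ℕ) : ℝ)) * Real.log (2 * (N + 1))
        ≤ (((8 * n / K + 1 : ℕ) : ℝ)) * (K * L / 200) :=
          mul_le_mul_of_nonneg_left hN (by positivity)
      _ = ((((8 * n / K + 1 : ℕ) : ℝ)) * K) * (L / 200) := by ring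
      _ ≤ (9 * n) * (L / 200) := by
          apply mul_le_mul_of_nonneg_right h2; linarith
      _ = _ := by ring
  have hl2 := Real.log_two_lt_d9
  have hn0 : (0 : ℝ) ≤ n := by positivity
  have h2n : (2 : ℝ) ^ n = Real.exp (n * Real.log 2) := by
    rw [Real.exp_nat_mul, Real.exp_log (by norm_num)]
  calc c * Real.exp (-(n * (L / 10 - Real.log 2)))
      ≤ (Real.exp (n * Real.log 2) * (Real.exp (8 * n) * Real.exp ((9 * n) * L / 200))) *
        Real.exp (-(n * (L / 10 - Real.log 2))) := by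
        apply mul_le_mul_of_nonneg_right _ (Real.exp_pos _).le
        rw [← h2n]
        exact hc.trans (mul_le_mul_of_nonneg_left
          (mul_le_mul_of_nonneg_left h1 (Real.exp_pos _).le) (by positivity))
    _ = Real.exp (n * (8 + 2 * Real.log 2 - 11 / 200 * L)) := by
        rw [← Real.exp_add, ← Real.exp_add, ← Real.exp_add]
        congr 1; ring
    _ ≤ Real.exp (-n) := by
        apply Real.exp_le_exp.2
        nlinarith

/-- D6a, with the count of the patterns as a hypothesis. -/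
theorem sum_patts_of {K k : ℕ} (hKk : K ≤ k) (hK0 : 0 < K) {l : V → β}
    (hcount : ∀ (Q : Finset (Finset β)) (d : ℕ),
      (∀ Z ∈ Q, ∃ S, Big G K S ∧ dd G S = d ∧ patt l S = Z) →
      (Q.card : ℝ) ≤ 2 ^ d * (Real.exp (8 * d) * (2 * (Fintype.card β + 1)) ^ (8 * d / K + 1)))
    (F : Finset (Finset β × ℕ))
    (hF : ∀ s ∈ F, k ≤ s.2 ∧ ∃ S, Big G K S ∧ dd G S = s.2 ∧ patt l S = s.1) {L : ℝ}
    (hL : 200 ≤ L) (hn : Real.log (2 * (Fintype.card β + 1)) ≤ K * L / 200) :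
    ∑ s ∈ F, Real.exp (-(s.2 * (L / 10 - Real.log 2))) < 1 := by
  classical
  have h1 : ∑ s ∈ F, Real.exp (-(s.2 * (L / 10 - Real.log 2)))
      = ∑ n ∈ F.image Prod.snd, ((F.filter fun s => s.2 = n).card : ℝ) *
        Real.exp (-(n * (L / 10 - Real.log 2))) := by
    rw [Finset.sum_comp (fun n : ℕ => Real.exp (-(n * (L / 10 - Real.log 2)))) Prod.snd]
    refine Finset.sum_congr rfl fun n _ => ?_
    rw [nsmul_eq_mul]
  rw [h1]
  have h2 : ∀ n ∈ F.image Prod.snd, ((F.filter fun s => s.2 = n).card : ℝ) *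
        Real.exp (-(n * (L / 10 - Real.log 2))) ≤ Real.exp (-(n : ℝ)) := by
    intro n hnn
    obtain ⟨s, hs, hsn⟩ := Finset.mem_image.1 hnn
    have hkn : k ≤ n := hsn ▸ (hF s hs).1
    have hc := hcount ((F.filter fun s => s.2 = n).image Prod.fst) n (by
      intro Z hZ
      obtain ⟨t, ht, htZ⟩ := Finset.mem_image.1 hZ
      obtain ⟨ht, htn⟩ := Finset.mem_filter.1 ht
      obtain ⟨_, S, hS1, hS2, hS3⟩ := hF t ht
      exact ⟨S, hS1, hS2.trans htn, hS3.trans htZ⟩)
    rw [Finset.card_image_of_injOn (by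
      intro s hs t ht hst
      have hs := (Finset.mem_filter.1 (Finset.mem_coe.1 hs)).2
      have ht := (Finset.mem_filter.1 (Finset.mem_coe.1 ht)).2
      exact Prod.ext hst (hs.trans ht.symm))] at hc
    exact level_bound2 (N := Fintype.card β) hK0 hKk hkn hL hn hc
  refine (Finset.sum_le_sum h2).trans_lt (sum_exp_neg _ ?_)
  intro n hnn
  obtain ⟨s, hs, hsn⟩ := Finset.mem_image.1 hnn
  have hkn : k ≤ n := hsn ▸ (hF s hs).1
  omega

/-- D6a -/
theorem sum_patts (h3 : ∀ v, G.degree v = 3) {K k : ℕ} (hc : CycConn G k) (hKk : K ≤ k)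
    (hK0 : 0 < K) (hg : Gir G K) {l : V → β} (hl : Function.Surjective l) {e : ℕ}
    (hx : Exd G l e) (F : Finset (Finset β × ℕ))
    (hF : ∀ s ∈ F, k ≤ s.2 ∧ ∃ S, Big G K S ∧ dd G S = s.2 ∧ patt l S = s.1) {L : ℝ}
    (hL : 200 ≤ L) (hn : Real.log (2 * (Fintype.card β + 1)) ≤ K * L / 200) :
    ∑ s ∈ F, Real.exp (-(s.2 * (L / 10 - Real.log 2))) < 1 :=
  sum_patts_of hKk hK0 (fun Q _ hQ => patt_count h3 hc hKk hK0 hg hl hx Q hQ) F hF hL hn

end Pool.Agent.Thin5
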