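import Mathlib
import Pool.Agent.Work.MP_974d84_co_thin.Copies
import Pool.Agent.Work.MP_974d84_co_thin.Round
import Pool.Agent.Work.MP_974d84_co_thin.Bonds
import Pool.Agent.Work.MP_974d84_co_thin.SmallB
import Pool.Agent.Work.MP_974d84_co_thin.Parts
import Pool.Agent.Work.MP_974d84_co_thin.Sum2
import Pool.Agent.Work.MP_974d84_co_thin.Compare
import Pool.Agent.Work.MP_974d84_co_thin.SplitB
import Pool.Agent.Work.MP_974d84_co_log.BigOf
import Pool.Agent.Work.MP_974d84_co_log.Girth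

/-!
# Cubic graphs made of few expanding parts
-/

set_option linter.unusedSectionVars false

namespace Pool.Agent.Thin5

open Finset SimpleGraph Pool.Agent.Exp Pool.Agent.Log5 MP974d84

variable {V : Type} [Fintype V] [DecidableEq V] {G : SimpleGraph V} [DecidableRel G.Adj]
variable {β : Type} [Fintype β] [DecidableEq β]

/-- The rounding with all the numbers. -/
theorem exists_thin_tree (h3 : ∀ v, G.degree v = 3) {μ : V → V} (hadj : ∀ v, G.Adj v (μ v))
    (hμ : ∀ v, μ (μ v) = v) {k K N r : ℕ} (hc : CycConn G k) (hKk : K ≤ k) (hK0 : 0 < K)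
    (hg : Gir G K) {l : V → β} (hl : Function.Surjective l) {e : ℕ} (hx : Exd G l e)
    (hN0 : 0 < N) (hN : 2 * (N * (4 * (3 * 2 ^ (2 * (r + 52))))) ≤ k)
    (hL : 200 ≤ Real.log N)
    (hn : Real.log (2 * (Fintype.card β + 1)) ≤ K * Real.log N / 200) :
    ∃ B : Finset V, (∀ u v, Cn (r1 G μ) (fun v => v) μ B u v) ∧
      (∀ p ∈ B, ∀ q ∈ B, p ≠ q → ¬ conf G μ (2 * (r + 52)) p q) ∧
      ∀ S, Big G K S → k ≤ dd G S → ∃ S₁, patt l S₁ = patt l S ∧ dd G S₁ = dd G S ∧
        ∀ A ⊆ B, (∀ p ∈ A, SplitB G (r + 52) S₁ p) → 10 * A.card ≤ dd G S := by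
  classical
  obtain ⟨T, hT1, hT2⟩ := exists_trees h3 hadj hμ hc hN0 hN
  have hself : ∀ p, conf G μ (2 * (r + 52)) p p :=
    fun p => ⟨p, p, Or.inl rfl, Or.inl rfl, Bl_self _ _⟩
  have hone : ∀ i j p, p ∈ T i → p ∈ T j → i = j := by
    intro i j p hi hj
    by_contra hne
    exact hT2 i j p hi p hj (fun h => hne (Prod.ext_iff.1 h).1) (hself p)
  let F : Finset (Finset β × ℕ) := (univ.filter fun S => Big G K S ∧ k ≤ dd G S).image
    fun S => (patt l S, dd G S)
  have hFS : ∀ z : Finset β × ℕ, ∃ S, z ∈ F → (Big G K S ∧ dd G S = z.2 ∧ patt l S = z.1) := by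
    intro z
    by_cases hz : z ∈ F
    · obtain ⟨S, hS, rfl⟩ := mem_image.1 hz
      exact ⟨S, fun _ => ⟨(mem_filter.1 hS).2.1, rfl, rfl⟩⟩
    · exact ⟨∅, fun h => absurd h hz⟩
  choose s hs using hFS
  have hFk : ∀ z ∈ F, k ≤ z.2 := by
    intro z hz
    obtain ⟨S, hS, rfl⟩ := mem_image.1 hz
    exact (mem_filter.1 hS).2.2
  let A : Finset β × ℕ → Finset V := fun z =>
    univ.filter fun p => (∃ i, p ∈ T i) ∧ SplitB G (r + 52) (s z) p
  have hdisj : ∀ p q, (∃ i, p ∈ T i) → (∃ i, q ∈ T i) → p ≠ q →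
      Disjoint (Bl G.Adj (r + 52) p) (Bl G.Adj (r + 52) q) := by
    rintro p q ⟨i, hi⟩ ⟨j, hj⟩ hne
    rw [Finset.disjoint_left]
    intro x hx1 hx2
    refine hT2 i j p hi q hj (fun h => hne (Prod.ext_iff.1 h).2)
      ⟨p, q, Or.inl rfl, Or.inl rfl, ?_⟩
    have := Bl_comp hx1 (Bl_symm (fun _ _ h => h.symm) hx2)
    rwa [← two_mul] at this
  have hAc : ∀ z ∈ F, (A z).card ≤ z.2 := by
    intro z hz
    rw [← (hs z hz).2.1]
    refine split_card (R := r + 52) (s z) (A z) ?_ ?_
    · intro u hu v hv hne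
      exact hdisj u v (mem_filter.1 hu).2.1 (mem_filter.1 hv).2.1 hne
    · intro u hu
      exact (mem_filter.1 hu).2.2
  set L := Real.log N with hLdef
  have hNr : (0 : ℝ) < N := by exact_mod_cast hN0
  obtain ⟨B, hB1, hB2, hB3⟩ := round hN0 T hT1 F (fun z => Real.exp (-(z.2 * (L / 10))))
    (fun _ => (N : ℝ)) (fun _ _ => Real.exp_nonneg _) (fun _ _ => hNr.le) A
  refine ⟨B, hB1, ?_, ?_⟩
  · intro p hp q hq hne
    obtain ⟨i, hi⟩ := hB2 p hp
    obtain ⟨j, hj⟩ := hB2 q hq
    exact hT2 i j p hi q hj fun h => hne (Prod.ext_iff.1 h).2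
  -- the average is small
  have hR : ∑ z ∈ F, Real.exp (-(z.2 * (L / 10))) * ∏ e ∈ A z,
      (1 + (N : ℝ) * (((univ.filter fun i => e ∈ T i).card : ℝ) / N)) < 1 := by
    refine lt_of_le_of_lt (sum_le_sum fun z hz => ?_)
      (sum_patts h3 hc hKk hK0 hg hl hx F (fun z hz => ⟨hFk z hz, s z, hs z hz⟩) hL hn)
    have h1 : ∀ e ∈ A z, (1 + (N : ℝ) * (((univ.filter fun i => e ∈ T i).card : ℝ) / N)) ≤ 2 := by
      intro e he
      have h2 : (univ.filter fun i => e ∈ T i).card ≤ 1 := by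
        rw [card_le_one]
        intro i hi j hj
        exact hone i j e (mem_filter.1 hi).2 (mem_filter.1 hj).2
      have h3' : ((univ.filter fun i => e ∈ T i).card : ℝ) ≤ 1 := by exact_mod_cast h2
      rw [mul_div_cancel₀ _ hNr.ne']
      linarith
    calc Real.exp (-(z.2 * (L / 10))) * ∏ e ∈ A z,
          (1 + (N : ℝ) * (((univ.filter fun i => e ∈ T i).card : ℝ) / N))
        ≤ Real.exp (-(z.2 * (L / 10))) * ∏ e ∈ A z, (2 : ℝ) := by
          refine mul_le_mul_of_nonneg_left ?_ (Real.exp_nonneg _)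
          exact prod_le_prod (fun _ _ => by positivity) h1
      _ = Real.exp (-(z.2 * (L / 10))) * 2 ^ (A z).card := by rw [prod_const]
      _ ≤ Real.exp (-(z.2 * (L / 10))) * 2 ^ z.2 := by
          refine mul_le_mul_of_nonneg_left ?_ (Real.exp_nonneg _)
          exact pow_le_pow_right₀ (by norm_num) (hAc z hz)
      _ = Real.exp (-(z.2 * (L / 10 - Real.log 2))) := by
          rw [← Real.exp_log (show (0 : ℝ) < 2 by norm_num), ← Real.exp_nat_mul, ← Real.exp_add,
            Real.exp_log (show (0 : ℝ) < 2 by norm_num)]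
          congr 1
          ring
  have hlt := lt_of_le_of_lt hB3 hR
  intro S hS hkS
  have hz : (patt l S, dd G S) ∈ F :=
    mem_image_of_mem _ (mem_filter.2 ⟨mem_univ _, hS, hkS⟩)
  refine ⟨s (patt l S, dd G S), (hs _ hz).2.2, (hs _ hz).2.1, ?_⟩
  intro A' hA'B hA'
  set z : Finset β × ℕ := (patt l S, dd G S) with hzdef
  have hA'z : A' ⊆ A z := by
    intro p hp
    exact mem_filter.2 ⟨mem_univ _, hB2 p (hA'B hp), hA' p hp⟩
  have h1 : Real.exp (-(z.2 * (L / 10))) * ∏ e ∈ A z, (1 + (N : ℝ) * if e ∈ B then 1 else 0) < 1 :=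
    lt_of_le_of_lt (single_le_sum (f := fun z : Finset β × ℕ => Real.exp (-(z.2 * (L / 10))) *
      ∏ e ∈ A z, (1 + (N : ℝ) * if e ∈ B then 1 else 0))
      (fun z _ => mul_nonneg (Real.exp_nonneg _) (prod_nonneg fun e _ => by
        split_ifs <;> positivity)) hz) hlt
  have h2 : (N : ℝ) ^ A'.card ≤ ∏ e ∈ A z, (1 + (N : ℝ) * if e ∈ B then 1 else 0) := by
    have h4 : ∏ e ∈ A', (1 + (N : ℝ) * if e ∈ B then 1 else 0) ≤
        ∏ e ∈ A z, (1 + (N : ℝ) * if e ∈ B then 1 else 0) := by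
      rw [← prod_sdiff hA'z]
      have h5 : (1 : ℝ) ≤ ∏ e ∈ A z \ A', (1 + (N : ℝ) * if e ∈ B then 1 else 0) := by
        calc (1 : ℝ) = ∏ e ∈ A z \ A', (1 : ℝ) := prod_const_one.symm
          _ ≤ _ := prod_le_prod (fun _ _ => zero_le_one) fun e _ => by
              split_ifs
              · linarith
              · linarith
      have h6 : (0 : ℝ) ≤ ∏ e ∈ A', (1 + (N : ℝ) * if e ∈ B then 1 else 0) :=
        prod_nonneg fun e _ => by split_ifs <;> positivity
      nlinarith
    refine le_trans ?_ h4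
    rw [← prod_const]
    refine prod_le_prod (fun _ _ => hNr.le) fun e he => ?_
    rw [if_pos (hA'B he)]
    linarith
  have h5 : Real.exp (-(z.2 * (L / 10))) * (N : ℝ) ^ A'.card < 1 :=
    lt_of_le_of_lt (mul_le_mul_of_nonneg_left h2 (Real.exp_nonneg _)) h1
  have h6 : Real.exp (-(z.2 * (L / 10))) * (N : ℝ) ^ A'.card
      = Real.exp (-(z.2 * (L / 10)) + A'.card * L) := by
    rw [Real.exp_add, mul_comm (A'.card : ℝ) L, hLdef, Real.exp_mul, Real.exp_log hNr,
      Real.rpow_natCast]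
  rw [h6, Real.exp_lt_one_iff] at h5
  have h7 : (A'.card : ℝ) * 10 < z.2 := by
    have hL0 : 0 < L := by linarith
    by_contra hcon
    push Not at hcon
    have : (z.2 : ℝ) * L ≤ A'.card * 10 * L := mul_le_mul_of_nonneg_right hcon hL0.le
    linarith
  have h8 : A'.card * 10 < dd G S := by exact_mod_cast h7
  omega

/-- Nowhere-zero 5-flows of graphs made of few expanding parts. -/
theorem core2 {ν : V → ℕ} (hν : Function.Injective ν) (h3 : ∀ v, G.degree v = 3)
    {k κ N r : ℕ} (hc : CycConn G k) (hKk : κ + 2 ≤ k) {l : V → β}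
    (hl : Function.Surjective l) {e : ℕ} (he : 1 ≤ e) (hr : 400 * e ≤ 2 ^ r) (hx : Exd G l e)
    (hN0 : 0 < N) (hN : 2 * (N * (4 * (3 * 2 ^ (2 * (r + 52))))) ≤ κ)
    (hL : 200 ≤ Real.log N)
    (hn : Real.log (2 * (Fintype.card β + 1)) ≤ κ * Real.log N / 200) :
    HasFlow (ZMod 5) (Prod.fst : V × V → V) Prod.snd (K.oe ν G) := by
  classical
  have hpow1 : 1 ≤ 2 ^ (2 * (r + 52)) := Nat.one_le_pow _ _ (by norm_num)
  have hK24 : 24 * 2 ^ (2 * (r + 52)) ≤ κ := by
    refine le_trans ?_ hN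
    have : 2 ^ (2 * (r + 52)) ≤ N * 2 ^ (2 * (r + 52)) := Nat.le_mul_of_pos_left _ hN0
    have e1 : 2 * (N * (4 * (3 * 2 ^ (2 * (r + 52))))) = 24 * (N * 2 ^ (2 * (r + 52))) := by ring
    omega
  have hk : 3 ≤ k := by omega
  have hK0 : 0 < κ := by omega
  obtain ⟨μ, hadj, hμ⟩ := exists_mu G h3 hk hc
  have hxadj : ∀ (A : Finset V) (x : V → V → ZMod 2),
      (∀ p q, x p q ≠ 0 → Al (r1 G μ) μ A p q) → ∀ p q, x p q ≠ 0 → G.Adj p q := by
    intro A x hxs p q hpq
    rcases hxs p q hpq with h | h | ⟨-, h⟩ | ⟨-, h⟩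
    · exact h.1
    · exact h.1.symm
    · rw [h]; exact hadj p
    · rw [h]; exact (hadj q).symm
  have hall : ∀ τ : Finset V, cc (r1 G μ) (fun v => v) μ τ ≤ 1 →
      ∀ u v, Cn (r1 G μ) (fun v => v) μ τ u v := by
    intro τ hτ2 u v
    unfold cc at hτ2
    have : Fintype (Quotient (cnS (r1 G μ) (fun v => v) μ τ)) := Fintype.ofFinite _
    rw [Nat.card_eq_fintype_card, Fintype.card_le_one_iff] at hτ2
    exact Quotient.exact (hτ2 (Quotient.mk _ u) (Quotient.mk _ v))
  have hτJ : ∀ (τ : Finset V) (x : V → V → ZMod 2) (Jv : Finset V),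
      (∀ p q, x p q ≠ 0 → Al (r1 G μ) μ τ p q) → (∀ v, v ∈ Jv ↔ x v (μ v) = 1) →
      ∀ u ∈ Jv, ∃ u' ∈ τ, u' = u ∨ u' = μ u := by
    intro τ x Jv hxs hJ1 u hu
    rw [hJ1] at hu
    rcases hxs u (μ u) (by rw [hu]; decide) with h | h | ⟨h, -⟩ | ⟨h, -⟩
    · exact absurd rfl h.2
    · exact absurd (hμ u).symm h.2
    · exact ⟨u, h, Or.inl rfl⟩
    · exact ⟨μ u, h, Or.inr rfl⟩
  rcases Nat.lt_or_ge (cc (r1 G μ) (fun v => v) μ (∅ : Finset V)) 2 with hlt | hge
  · obtain ⟨x, hx', hxs, hx1⟩ := exists_x (hall ∅ (by omega)) (even_card G h3)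
    obtain ⟨Jv, φ, hJ1, hJ2, hφ3, hφ0, hφ⟩ :=
      exists_phi G (ν := ν) hν h3 hadj hμ hx' (hxadj _ x hxs) hx1
    refine extend_bond hν h3 hk hc hμ hJ2 hφ3 hφ0 hφ ?_
    intro W _ _ h2
    obtain ⟨u, hu⟩ : (Jends μ Jv W).Nonempty := by
      rw [← card_pos]
      unfold jj at h2
      omega
    obtain ⟨u', hu', -⟩ := hτJ ∅ x Jv hxs hJ1 u ((mem_Jends μ Jv).1 hu).2.1
    exact absurd hu' (notMem_empty u')
  · -- the number of vertices is large
    have hnk : 2 * k ≤ Fintype.card V := by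
      obtain ⟨v⟩ : Nonempty V := by
        by_contra hno
        rw [not_nonempty_iff] at hno
        unfold cc at hge
        have : IsEmpty (Quotient (cnS (r1 G μ) (fun v => v) μ (∅ : Finset V))) :=
          ⟨fun q => Quotient.inductionOn q fun v => hno.false v⟩
        rw [Nat.card_of_isEmpty] at hge
        omega
      obtain ⟨X, -, hX, n1, n2⟩ := exists_class G h3 ∅ hge v
      have hX' : ∀ p q, r1 G μ p q → (p ∈ Xᶜ ↔ q ∈ Xᶜ) := by
        intro p q h
        rw [mem_compl, mem_compl, hX p q h]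
      have k1 := hc X n1 n2
      have k2 := closed_cut G hX
      have k3 := closed_cut G hX'
      rw [dd_compl] at k3
      have k4 := card_filter_le X (fun v => μ v ∉ X ∧ G.Adj v (μ v))
      have k5 := card_filter_le Xᶜ (fun v => μ v ∉ Xᶜ ∧ G.Adj v (μ v))
      have k6 := card_add_card_compl X
      omega
    have hg : Gir G k := by
      rcases gir_of_cyc h3 hc with h | h
      · exact h
      · omega
    have hgK : Gir G κ := fun A hA => hg A (by omega)
    obtain ⟨τ, hτ1, hτ2, hτ3⟩ := exists_thin_tree h3 hadj hμ hc (by omega : κ ≤ k) hK0 hgK hl hx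
      hN0 (hN.trans (by omega)) hL hn
    obtain ⟨x, hx', hxs, hx1⟩ := exists_x hτ1 (even_card G h3)
    obtain ⟨Jv, φ, hJ1, hJ2, hφ3, hφ0, hφ⟩ :=
      exists_phi G (ν := ν) hν h3 hadj hμ hx' (hxadj _ x hxs) hx1
    refine extend_bond hν h3 hk hc hμ hJ2 hφ3 hφ0 hφ ?_
    have hfar : ∀ u ∈ Jv, ∀ v ∈ Jv, v ≠ u → v ≠ μ u → v ∉ Bl G.Adj (2 * (r + 52)) u := by
      intro u hu v hv hne hne' hmem
      obtain ⟨u', hu', hu''⟩ := hτJ τ x Jv hxs hJ1 u hu
      obtain ⟨v', hv', hv''⟩ := hτJ τ x Jv hxs hJ1 v hv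
      have hneq : u' ≠ v' := by
        rintro rfl
        rcases hu'' with h | h <;> rcases hv'' with h' | h'
        · exact hne (h'.symm.trans h)
        · apply hne'
          rw [← h, h', hμ]
        · apply hne'
          rw [← h', h]
        · apply hne
          rw [← hμ v, ← h', h, hμ]
      apply hτ2 u' hu' v' hv' hneq
      refine ⟨u, v, ?_, ?_, hmem⟩
      · rcases hu'' with h | h
        · exact Or.inl h.symm
        · right; rw [h, hμ]
      · rcases hv'' with h | h
        · exact Or.inl h.symm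
        · right; rw [h, hμ]
    intro W hW hW' h2
    rcases Nat.lt_or_ge (dd G W) k with hd | hd
    · refine thin_small h3 hc hμ hJ2 ?_ hW hW' hd h2
      intro u hu v hv hne hne' hmem
      exact hfar u hu v hv hne hne' (Bl_mono (by omega) u hmem)
    · have hne : W.Nonempty := by
        rw [nonempty_iff_ne_empty]
        rintro rfl
        unfold jj at h2
        simp [Jends] at h2
      have hne' : Wᶜ.Nonempty := by
        rw [nonempty_iff_ne_empty]
        intro h0
        have h4 := h2.trans (jj_compl hμ hJ2 W)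
        rw [h0] at h4
        unfold jj at h4
        simp [Jends] at h4
      have hB : Big G κ W := big_of_bond h3 ⟨hW, hW', hne, hne'⟩ (by omega)
      obtain ⟨S₁, hp, hd1, hY⟩ := hτ3 W hB hd
      have hsmall : 3 * 2 ^ (r + 50) < κ := by
        have h4 : 2 ^ (r + 50) ≤ 2 ^ (2 * (r + 52)) := Nat.pow_le_pow_right (by norm_num) (by omega)
        omega
      refine compare (l := l) (e := e) (r := r) (S₁ := S₁) h3 hadj hμ hJ2 hr he ?_ ?_ hW hW'
        (by have := hB.2.2.1; omega) (by have := hB.2.2.2; omega) hp (mino_card hx W)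
        (by rw [← hd1]; exact mino_card hx S₁)
        (Y := (Jends μ Jv W).filter fun u => SplitB G (r + 51) S₁ u)
        (fun u hu h => mem_filter.2 ⟨hu, h⟩) ?_
      · intro A hA
        exact hg A (by omega)
      · intro u hu v hv hne hne' hmem
        exact hfar u hu v hv hne hne' (Bl_mono (by omega) u hmem)
      · -- the representatives in the tree
        have hrep : ∀ u, ∃ u', u ∈ (Jends μ Jv W).filter (fun u => SplitB G (r + 51) S₁ u) →
            u' ∈ τ ∧ (u' = u ∨ u' = μ u) := by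
          intro u
          by_cases hu : u ∈ (Jends μ Jv W).filter fun u => SplitB G (r + 51) S₁ u
          · obtain ⟨u', h1, h2⟩ := hτJ τ x Jv hxs hJ1 u
              ((mem_Jends μ Jv).1 (mem_filter.1 hu).1).2.1
            exact ⟨u', fun _ => ⟨h1, h2⟩⟩
          · exact ⟨u, fun h => absurd h hu⟩
        choose f hf using hrep
        have hinj : Set.InjOn f
            ((Jends μ Jv W).filter fun u => SplitB G (r + 51) S₁ u : Finset V) := by
          intro u hu v hv huv
          rw [mem_coe] at hu hv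
          have hu1 := (mem_Jends μ Jv).1 (mem_filter.1 hu).1
          have hv1 := (mem_Jends μ Jv).1 (mem_filter.1 hv).1
          rcases (hf u hu).2 with h | h <;> rcases (hf v hv).2 with h' | h'
          · rw [← h, huv, h']
          · exfalso
            have : u = μ v := by rw [← h, huv, h']
            exact hv1.2.2 (this ▸ hu1.1)
          · exfalso
            have : μ u = v := by rw [← h, huv, h']
            exact hu1.2.2 (this ▸ hv1.1)
          · have : μ u = μ v := by rw [← h, huv, h']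
            rw [← hμ u, this, hμ]
        rw [← card_image_of_injOn hinj]
        refine hY _ ?_ ?_
        · intro p hp'
          obtain ⟨u, hu, rfl⟩ := mem_image.1 hp'
          exact (hf u hu).1
        · intro p hp'
          obtain ⟨u, hu, rfl⟩ := mem_image.1 hp'
          obtain ⟨a, ha, b, hb, hab⟩ := (mem_filter.1 hu).2
          have key : ∀ c ∈ Bl G.Adj (r + 51) u, c ∈ Bl G.Adj (r + 52) (f u) := by
            intro c hc'
            rcases (hf u hu).2 with h | h
            · rw [h]; exact Bl_mono (by omega) u hc'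
            · rw [h]
              have h1 : u ∈ Bl G.Adj 1 (μ u) :=
                mem_Bl_succ.2 (Or.inr ⟨μ u, mem_Bl_zero.2 rfl, (hadj u).symm⟩)
              have := Bl_comp h1 hc'
              rwa [show 1 + (r + 51) = r + 52 by omega] at this
          exact ⟨a, key a ha, b, key b hb, hab⟩

end Pool.Agent.Thin5
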