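import Mathlib
import Pool.Agent.Work.MP_974d84_co_thin.Final2

/-!
# Cubic graphs made of few expanding parts: the statement with one constant
-/

set_option linter.unusedSectionVars false

namespace Pool.Agent.Thin5

open Finset SimpleGraph Pool.Agent.Exp Pool.Agent.Log5 MP974d84

/-- The integer parameters. -/
theorem params2 {k : ℕ} {c : ℝ} (hc0 : 0 < c) (hc1 : c ≤ 1)
    (hC : Real.exp 1000 ≤ c ^ 2 * k) :
    ∃ e r N K : ℕ, 1 ≤ e ∧ 1 / c ≤ e ∧ 400 * e ≤ 2 ^ r ∧ 0 < N ∧ K + 2 ≤ k ∧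
      2 * (N * (4 * (3 * 2 ^ (2 * (r + 52))))) ≤ K ∧ (1 / 2) * Real.log (c ^ 2 * k) ≤ Real.log N ∧
      (k : ℝ) / 2 ≤ K := by
  have h1000 : (1000 : ℝ) + 1 ≤ Real.exp 1000 := Real.add_one_le_exp 1000
  have hk : c ^ 2 * k ≤ k := by
    have h1 : c ^ 2 ≤ 1 := pow_le_one₀ hc0.le hc1
    have h2 : (0 : ℝ) ≤ k := Nat.cast_nonneg _
    nlinarith
  have hkr : (1001 : ℝ) ≤ k := by linarith
  have hk4 : 1001 ≤ k := by exact_mod_cast hkr
  obtain ⟨e, he⟩ : ∃ e : ℕ, e = ⌈1 / c⌉₊ := ⟨_, rfl⟩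
  have he1 : 1 / c ≤ e := by rw [he]; exact Nat.le_ceil _
  have hc' : 1 ≤ 1 / c := by rw [le_div_iff₀ hc0]; linarith
  have he2 : (e : ℝ) ≤ 2 / c := by
    have := Nat.ceil_lt_add_one (a := 1 / c) (by positivity)
    rw [← he] at this
    have h2 : 2 / c = 1 / c + 1 / c := by ring
    linarith
  have he3 : 1 ≤ e := by
    have : (1 : ℝ) ≤ e := hc'.trans he1
    exact_mod_cast this
  obtain ⟨r, hr⟩ : ∃ r : ℕ, r = Nat.clog 2 (400 * e) := ⟨_, rfl⟩
  have hr1 : 400 * e ≤ 2 ^ r := by rw [hr]; exact Nat.le_pow_clog (by norm_num) _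
  have hr2 : 2 ^ r ≤ 2 * (400 * e) := by
    have h1 : 2 ^ (Nat.clog 2 (400 * e)).pred < 400 * e :=
      Nat.pow_pred_clog_lt_self (by norm_num) (by omega)
    have h2 : 0 < Nat.clog 2 (400 * e) := Nat.clog_pos (by norm_num) (by omega)
    have h3 : 2 ^ r = 2 * 2 ^ (Nat.clog 2 (400 * e)).pred := by
      rw [hr, ← pow_succ', Nat.pred_eq_sub_one, Nat.sub_add_cancel h2]
    omega
  have hr3 : (2 : ℝ) ^ r ≤ 1600 / c := by
    have h1 : ((2 ^ r : ℕ) : ℝ) ≤ ((2 * (400 * e) : ℕ) : ℝ) := by exact_mod_cast hr2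
    push_cast at h1
    have h2 : 1600 / c = 800 * (2 / c) := by ring
    linarith
  obtain ⟨P, hP⟩ : ∃ P : ℕ, P = 24 * 2 ^ (2 * (r + 52)) := ⟨_, rfl⟩
  have hP0 : 0 < P := by rw [hP]; positivity
  have hP1 : (P : ℝ) * c ^ 2 ≤ 2 ^ 130 := by
    rw [hP]
    push_cast
    have h1 : (2 : ℝ) ^ (2 * (r + 52)) = 2 ^ 104 * ((2 : ℝ) ^ r) ^ 2 := by
      rw [← pow_mul, ← pow_add]; congr 1; ring
    have h2 : ((2 : ℝ) ^ r) ^ 2 ≤ (1600 / c) ^ 2 := pow_le_pow_left₀ (by positivity) hr3 2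
    have h3 : (1600 / c) ^ 2 * c ^ 2 = 2560000 := by field_simp; norm_num
    have h4 : ((2 : ℝ) ^ r) ^ 2 * c ^ 2 ≤ 2560000 := by
      rw [← h3]; exact mul_le_mul_of_nonneg_right h2 (by positivity)
    rw [h1]
    calc 24 * (2 ^ 104 * ((2 : ℝ) ^ r) ^ 2) * c ^ 2
        = 24 * 2 ^ 104 * (((2 : ℝ) ^ r) ^ 2 * c ^ 2) := by ring
      _ ≤ 24 * 2 ^ 104 * 2560000 := by
          refine mul_le_mul_of_nonneg_left h4 (by positivity)
      _ ≤ 2 ^ 130 := by norm_num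
  -- the number of copies
  obtain ⟨K, hK⟩ : ∃ K : ℕ, K = k - 2 := ⟨_, rfl⟩
  obtain ⟨N, hN⟩ : ∃ N : ℕ, N = K / P := ⟨_, rfl⟩
  have hKr : (K : ℝ) = k - 2 := by
    rw [hK, Nat.cast_sub (by omega)]; norm_num
  have hk2K : (k : ℝ) ≤ 2 * (K : ℝ) := by rw [hKr]; linarith
  have hexp : (2 : ℝ) ^ 264 ≤ Real.exp 1000 := by
    have h1 : (2 : ℝ) ≤ Real.exp 1 := by
      have := Real.add_one_le_exp (1 : ℝ); linarith
    calc (2 : ℝ) ^ 264 ≤ (Real.exp 1) ^ 264 := pow_le_pow_left₀ (by norm_num) h1 _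
      _ = Real.exp 264 := by rw [← Real.exp_nat_mul]; norm_num
      _ ≤ Real.exp 1000 := Real.exp_le_exp.2 (by norm_num)
  have hy : (2 : ℝ) ^ 264 ≤ c ^ 2 * k := hexp.trans hC
  have hy0 : 0 < c ^ 2 * k := lt_of_lt_of_le (by positivity) hy
  have h132 : (2 : ℝ) ^ 132 ≤ c ^ 2 * k :=
    (pow_le_pow_right₀ (by norm_num) (by norm_num)).trans hy
  have hN1 : (1 : ℝ) ≤ c ^ 2 * k / 2 ^ 132 := by
    rw [le_div_iff₀ (by positivity), one_mul]
    exact h132
  have hN1' := hN1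
  have hPr : (0 : ℝ) < P := by exact_mod_cast hP0
  have hNr : c ^ 2 * k / 2 ^ 132 ≤ N := by
    have h1 : (K : ℝ) / P < N + 1 := by
      rw [div_lt_iff₀ hPr, hN]
      have := Nat.lt_mul_div_succ K hP0
      have h2 : (K : ℝ) < ((P * (K / P + 1) : ℕ) : ℝ) := by exact_mod_cast this
      push_cast at h2
      linarith
    have h2 : c ^ 2 * k / 2 ^ 131 ≤ (K : ℝ) / P := by
      rw [div_le_div_iff₀ (by positivity) hPr]
      calc c ^ 2 * (k : ℝ) * (P : ℝ) = ((P : ℝ) * c ^ 2) * (k : ℝ) := by ring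
        _ ≤ 2 ^ 130 * (k : ℝ) := mul_le_mul_of_nonneg_right hP1 (Nat.cast_nonneg _)
        _ ≤ 2 ^ 130 * (2 * (K : ℝ)) := mul_le_mul_of_nonneg_left hk2K (by positivity)
        _ = (K : ℝ) * 2 ^ 131 := by ring
    have h4 : c ^ 2 * k / 2 ^ 131 = 2 * (c ^ 2 * k / 2 ^ 132) := by
      rw [show (2 : ℝ) ^ 132 = 2 ^ 131 * 2 by ring]
      field_simp
    clear hexp hy h132 hN1
    set y := c ^ 2 * (k : ℝ) / 2 ^ 132
    rw [h4] at h2
    have h5 : (1 : ℝ) ≤ y := hN1'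
    linarith
  have hN0 : 0 < N := by
    have : (0 : ℝ) < N := lt_of_lt_of_le one_pos (hN1.trans hNr)
    exact_mod_cast this
  refine ⟨e, r, N, K, he3, he1, hr1, hN0, by omega, ?_, ?_, ?_⟩
  · have h1 : N * P ≤ K := by rw [hN]; exact Nat.div_mul_le_self _ _
    calc 2 * (N * (4 * (3 * 2 ^ (2 * (r + 52))))) = N * P := by rw [hP]; ring
      _ ≤ K := h1
  · have h1 : Real.log (c ^ 2 * k / 2 ^ 132) ≤ Real.log N :=
      Real.log_le_log (lt_of_lt_of_le one_pos hN1) hNr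
    rw [Real.log_div hy0.ne' (by positivity)] at h1
    have h2 : Real.log ((2 : ℝ) ^ 264) ≤ Real.log (c ^ 2 * k) :=
      Real.log_le_log (by positivity) hy
    rw [Real.log_pow] at h2
    rw [Real.log_pow] at h1
    push_cast at h1 h2
    linarith
  · rw [div_le_iff₀ (by norm_num), mul_comm]
    exact hk2K

/-- **Theorem (D)** with explicit constants. -/
theorem main2_explicit {V : Type} [Fintype V] [DecidableEq V] (G : SimpleGraph V)
    [DecidableRel G.Adj] (h3 : ∀ v, G.degree v = 3) (k B : ℕ) (c : ℝ) (hc0 : 0 < c) (hc1 : c ≤ 1)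
    (hcyc : CycConn G k) (l : V → Fin B)
    (hexp : ∀ (i : Fin B) (X : Finset V), (∀ v ∈ X, l v = i) →
      2 * X.card ≤ (univ.filter fun v => l v = i).card →
      c * X.card ≤ ((univ.filter fun p : V × V =>
        p.1 ∈ X ∧ p.2 ∉ X ∧ l p.2 = i ∧ G.Adj p.1 p.2).card : ℝ))
    (hC : Real.exp 1000 ≤ c ^ 2 * k) (hB : 1000 * Real.log B ≤ k * Real.log (c ^ 2 * k)) :
    ∀ i : ℕ, 5 ≤ i → HasNZFlow (ZMod i) G := by
  classical
  have hν : Function.Injective fun v : V => ((Fintype.equivFin V v : Fin _) : ℕ) :=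
    fun u v h => (Fintype.equivFin V).injective (Fin.ext h)
  refine K.lift_five (K.hasNZ_of_hasFlow hν ?_)
  obtain ⟨e, r, N, K, he, hec, hr, hN0, hKk, hN, hlog, hk2⟩ := params2 hc0 hc1 hC
  have h1000 : (1000 : ℝ) + 1 ≤ Real.exp 1000 := Real.add_one_le_exp 1000
  have hy1000 : (1000 : ℝ) ≤ Real.log (c ^ 2 * k) := by
    have := Real.log_le_log (Real.exp_pos 1000) hC
    rwa [Real.log_exp] at this
  let β := {i : Fin B // i ∈ (univ : Finset V).image l}
  let l' : V → β := fun v => ⟨l v, mem_image_of_mem _ (mem_univ _)⟩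
  have hl' : Function.Surjective l' := by
    rintro ⟨i, hi⟩
    obtain ⟨v, -, rfl⟩ := mem_image.1 hi
    exact ⟨v, rfl⟩
  have hll : ∀ (v : V) (i : β), l' v = i ↔ l v = i.1 := by
    intro v i
    exact ⟨fun h => by rw [← h], fun h => Subtype.ext h⟩
  have hβ : Fintype.card β ≤ B := by
    have := Fintype.card_subtype_le (fun i : Fin B => i ∈ (univ : Finset V).image l)
    rwa [Fintype.card_fin] at this
  have hx : Exd G l' e := by
    intro i X hX hX2
    have e1 : part l' i = univ.filter fun v => l v = i.1 := by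
      ext v; rw [mem_part, hll, mem_filter]; simp
    rw [e1] at hX2
    have h1 := hexp i.1 X (fun v hv => (hll v i).1 (mem_part.1 (hX hv))) hX2
    have e2 : (univ.filter fun p : V × V =>
        p.1 ∈ X ∧ p.2 ∉ X ∧ l p.2 = i.1 ∧ G.Adj p.1 p.2) =
        (Pool.Agent.Work.MP_314beb_co.cut G X).filter fun p => l' p.2 = i := by
      ext p
      rw [mem_filter, mem_filter, mem_cut, hll]
      constructor
      · rintro ⟨-, a1, a2, a3, a4⟩; exact ⟨⟨a1, a2, a4⟩, a3⟩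
      · rintro ⟨⟨a1, a2, a4⟩, a3⟩; exact ⟨mem_univ _, a1, a2, a3, a4⟩
    rw [e2] at h1
    set m := ((Pool.Agent.Work.MP_314beb_co.cut G X).filter fun p => l' p.2 = i).card
    have h2 : (X.card : ℝ) ≤ 1 / c * m := by
      rw [one_div, inv_mul_eq_div, le_div_iff₀ hc0]
      linarith
    have h4 : (X.card : ℝ) ≤ e * m :=
      h2.trans (mul_le_mul_of_nonneg_right hec (Nat.cast_nonneg _))
    exact_mod_cast h4
  refine core2 hν h3 hcyc hKk hl' he hr hx hN0 hN ?_ ?_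
  · linarith
  · have hkr : (1001 : ℝ) ≤ k := by
      have h1 : c ^ 2 ≤ 1 := pow_le_one₀ hc0.le hc1
      have h2 : (0 : ℝ) ≤ k := Nat.cast_nonneg _
      nlinarith
    have h1 : Real.log (2 * (Fintype.card β + 1)) ≤ Real.log 4 + Real.log B := by
      rcases Nat.eq_zero_or_pos (Fintype.card β) with h0 | h0
      · rw [h0]
        have : (0 : ℝ) ≤ Real.log B := Real.log_natCast_nonneg _
        have h4 : Real.log (2 * ((0 : ℕ) + 1)) ≤ Real.log 4 :=
          Real.log_le_log (by norm_num) (by norm_num)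
        linarith
      · have hBr : (1 : ℝ) ≤ B := by exact_mod_cast h0.trans_le hβ
        rw [← Real.log_mul (by norm_num) (by linarith)]
        apply Real.log_le_log (by positivity)
        have : (Fintype.card β : ℝ) ≤ B := by exact_mod_cast hβ
        linarith
    have h2 : Real.log 4 ≤ 2 := by
      have h4 : Real.log 4 = 2 * Real.log 2 := by
        rw [show (4 : ℝ) = 2 ^ 2 by norm_num, Real.log_pow]; push_cast; ring
      have := Real.log_two_lt_d9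
      linarith
    have h4 : Real.log B ≤ k * Real.log (c ^ 2 * k) / 1000 := by linarith
    have h5 : (k : ℝ) * Real.log (c ^ 2 * k) / 800 ≤ K * Real.log N / 200 := by
      have h6 : (k : ℝ) / 2 * ((1 / 2) * Real.log (c ^ 2 * k)) ≤ K * Real.log N :=
        mul_le_mul hk2 hlog (by linarith) (Nat.cast_nonneg _)
      linarith
    have h6 : (1001 : ℝ) * 1000 ≤ k * Real.log (c ^ 2 * k) :=
      mul_le_mul hkr hy1000 (by norm_num) (by linarith)
    linarith

/-- **Theorem (D).** -/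
theorem main2 : ∃ C : ℝ, 0 < C ∧ ∀ {V : Type} [Fintype V] [DecidableEq V] (G : SimpleGraph V)
    [DecidableRel G.Adj], (∀ v, G.degree v = 3) → ∀ (k B : ℕ) (c : ℝ), 0 < c → c ≤ 1 →
    CycConn G k → ∀ l : V → Fin B,
    (∀ (i : Fin B) (X : Finset V), (∀ v ∈ X, l v = i) →
      2 * X.card ≤ (univ.filter fun v => l v = i).card →
      c * X.card ≤ ((univ.filter fun p : V × V =>
        p.1 ∈ X ∧ p.2 ∉ X ∧ l p.2 = i ∧ G.Adj p.1 p.2).card : ℝ)) →
    C ≤ c ^ 2 * k → C * Real.log B ≤ k * Real.log (c ^ 2 * k) →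
    ∀ i : ℕ, 5 ≤ i → HasNZFlow (ZMod i) G := by
  refine ⟨Real.exp 1000, Real.exp_pos _, ?_⟩
  intro V _ _ G _ h3 k B c hc0 hc1 hcyc l hexp hC hB
  refine main2_explicit G h3 k B c hc0 hc1 hcyc l hexp hC (le_trans ?_ hB)
  have := Real.add_one_le_exp (1000 : ℝ)
  exact mul_le_mul_of_nonneg_right (by linarith) (Real.log_natCast_nonneg _)

end Pool.Agent.Thin5
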