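import Mathlib
import Pool.Agent.Work.MP_974d84_co_thin.Defs2
import Pool.Agent.Work.MP_974d84_co_log.Trace

/-!
# Theorem (D): the statements of the modules (nobody imports this file)
-/

set_option linter.unusedSectionVars false

namespace Pool.Agent.Thin5.Plan2

open Finset SimpleGraph Pool.Agent.Exp Pool.Agent.Log5 Pool.Agent.Thin5 MP974d84

section
variable {V : Type} [Fintype V] [DecidableEq V] {G : SimpleGraph V} [DecidableRel G.Adj]
variable {β : Type} [Fintype β] [DecidableEq β]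

/-- D5a, file Parts.lean: each point of the minority costs; the edges are inside the parts. -/
theorem mino_card {l : V → β} {e : ℕ} (hx : Exd G l e) (S : Finset V) :
    (mino l S).card ≤ e * dd G S := by
  sorry

/-- D5b, file Parts.lean: the number of patterns. -/
theorem patt_count (h3 : ∀ v, G.degree v = 3) {K k : ℕ} (hc : CycConn G k) (hKk : K ≤ k)
    (hK0 : 0 < K) (hg : Gir G K) {l : V → β} (hl : Function.Surjective l) {e : ℕ}
    (hx : Exd G l e) (Q : Finset (Finset β)) {d : ℕ}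
    (hQ : ∀ Z ∈ Q, ∃ S, Big G K S ∧ dd G S = d ∧ patt l S = Z) :
    (Q.card : ℝ) ≤ 2 ^ d * (Real.exp (8 * d) * (2 * (Fintype.card β + 1)) ^ (8 * d / K + 1)) := by
  sorry

/-- D6a, file Sum2.lean: the numbers. -/
theorem sum_patts (h3 : ∀ v, G.degree v = 3) {K k : ℕ} (hc : CycConn G k) (hKk : K ≤ k)
    (hK0 : 0 < K) (hg : Gir G K) {l : V → β} (hl : Function.Surjective l) {e : ℕ}
    (hx : Exd G l e) (F : Finset (Finset β × ℕ))
    (hF : ∀ s ∈ F, k ≤ s.2 ∧ ∃ S, Big G K S ∧ dd G S = s.2 ∧ patt l S = s.1) {L : ℝ}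
    (hL : 200 ≤ L) (hn : Real.log (2 * (Fintype.card β + 1)) ≤ K * L / 200) :
    ∑ s ∈ F, Real.exp (-(s.2 * (L / 10 - Real.log 2))) < 1 := by
  sorry

/-- D6b, file GrowT.lean: `ball_big` with a general number of cut edges. -/
theorem ball_big_t (h3 : ∀ v, G.degree v = 3) {Z : Finset V} (hZ : Joined G Z) {u : V}
    (hu : u ∈ Z) {r t : ℕ} (hr : 1 ≤ r) (ht : 2 ≤ t)
    (hsm : ∀ A : Finset V, A.card ≤ 3 * 2 ^ (r + t) → (G.induce (A : Set V)).IsAcyclic)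
    (hne : ¬ Z ⊆ Bl (RW G Z) (r + t) u)
    (hb : (bd G Z (Bl (RW G Z) (r + t) u)).card ≤ t) :
    2 ^ r ≤ (Bl (RW G Z) (r + t) u).card := by
  sorry

/-- D7, file Compare.lean: comparison with a cut of the same pattern. Here `R = r + 50`. -/
theorem compare (h3 : ∀ v, G.degree v = 3) {μ : V → V} (hadj : ∀ v, G.Adj v (μ v))
    (hμ : ∀ v, μ (μ v) = v) {Jv : Finset V} (hJ : ∀ v ∈ Jv, μ v ∈ Jv) {l : V → β} {e r : ℕ}
    (hr : 400 * e ≤ 2 ^ r) (he : 1 ≤ e)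
    (hsm : ∀ A : Finset V, A.card ≤ 3 * 2 ^ (r + 50) → (G.induce (A : Set V)).IsAcyclic)
    (hfar : ∀ u ∈ Jv, ∀ v ∈ Jv, v ≠ u → v ≠ μ u → v ∉ Bl G.Adj (2 * (r + 50)) u)
    {S S₁ : Finset V} (hS : Joined G S) (hS' : Joined G Sᶜ)
    (hc1 : 3 * 2 ^ (r + 50) < S.card) (hc2 : 3 * 2 ^ (r + 50) < Sᶜ.card)
    (hp : patt l S₁ = patt l S) (hX : (mino l S).card ≤ e * dd G S)
    (hX₁ : (mino l S₁).card ≤ e * dd G S) {Y : Finset V}
    (hY : ∀ u ∈ Jends μ Jv S, SplitB G (r + 51) S₁ u → u ∈ Y)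
    (hY1 : 10 * Y.card ≤ dd G S) : 5 * jj μ Jv S ≤ dd G S := by
  sorry

/-- D6c, file SplitB.lean: disjoint balls which are split cost at least one cut edge each. -/
theorem split_card {R : ℕ} (S : Finset V) (A : Finset V)
    (hd : ∀ u ∈ A, ∀ v ∈ A, u ≠ v → Disjoint (Bl G.Adj R u) (Bl G.Adj R v))
    (hA : ∀ u ∈ A, SplitB G R S u) : A.card ≤ dd G S := by
  sorry

end

/-- D8, file Final2.lean -/
theorem main2 : ∃ C : ℝ, 0 < C ∧ ∀ {V : Type} [Fintype V] [DecidableEq V] (G : SimpleGraph V)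
    [DecidableRel G.Adj], (∀ v, G.degree v = 3) → ∀ (k B : ℕ) (c : ℝ), 0 < c → c ≤ 1 →
    CycConn G k → ∀ l : V → Fin B,
    (∀ (i : Fin B) (X : Finset V), (∀ v ∈ X, l v = i) →
      2 * X.card ≤ (univ.filter fun v => l v = i).card →
      c * X.card ≤ ((univ.filter fun p : V × V =>
        p.1 ∈ X ∧ p.2 ∉ X ∧ l p.2 = i ∧ G.Adj p.1 p.2).card : ℝ)) →
    C ≤ c ^ 2 * k → C * Real.log B ≤ k * Real.log (c ^ 2 * k) →
    ∀ i : ℕ, 5 ≤ i → HasNZFlow (ZMod i) G := by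
  sorry

end Pool.Agent.Thin5.Plan2
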